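import Pool.Agent.U115.XP.Mat
import Pool.Agent.N273.PQ.FinM

/-!
# Rank zero and finitely many points
-/

set_option autoImplicit false
set_option linter.style.haveILetI false
set_option linter.unusedSectionVars false

attribute [-instance] DivisionRing.toRatAlgebra

open scoped Classical

namespace Pool.Agent.U115.XP

open Finset
open Pool.Agent.Y682 (wc)
open Pool.Agent.TH841.NF.D (rk Sha)
open Pool.Agent.N874.PP (sW)
open Pool.Agent.Y687 (Rt)

/-- Mordell-Weil -/
theorem fg_wc (K : Type) [Field K] [NumberField K] (a b : K) (hb : b ≠ 0)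
    (hab : a ^ 2 - 4 * b ≠ 0) : AddGroup.FG (wc a b).toAffine.Point := by
  have h3 : (3 : K) ≠ 0 := by norm_num
  have h27 : (27 : K) ≠ 0 := by norm_num
  set A : K := b - a ^ 2 / 3 with hA
  set B : K := 2 * a ^ 3 / 27 - a * b / 3 with hB
  have hAB : 4 * A ^ 3 + 27 * B ^ 2 ≠ 0 := by
    have h1 : 4 * A ^ 3 + 27 * B ^ 2 = -(b ^ 2 * (a ^ 2 - 4 * b)) := by
      rw [hA, hB]; field_simp; ring
    rw [h1]
    exact neg_ne_zero.2 (mul_ne_zero (pow_ne_zero 2 hb) hab)
  have hΔ : (wc a b).Δ ≠ 0 := by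
    have h1 : (wc a b).Δ = 16 * (b ^ 2 * (a ^ 2 - 4 * b)) := by
      unfold wc WeierstrassCurve.Δ WeierstrassCurve.b₂ WeierstrassCurve.b₄ WeierstrassCurve.b₆
        WeierstrassCurve.b₈
      simp only
      ring
    rw [h1]
    exact mul_ne_zero (by norm_num) (mul_ne_zero (pow_ne_zero 2 hb) hab)
  obtain ⟨⟨e⟩, -⟩ := Pool.Agent.Y655.XT.s_shavc K (wc a b) (sW A B)
    ⟨1, -a / 3, 0, 0⟩ hΔ (by
      unfold wc sW
      ext
      · simp [WeierstrassCurve.variableChange_def]
      · simp [WeierstrassCurve.variableChange_def]; field_simp; ring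
      · simp [WeierstrassCurve.variableChange_def]
      · simp [WeierstrassCurve.variableChange_def, hA]; field_simp; ring
      · simp [WeierstrassCurve.variableChange_def, hB]; field_simp; ring)
  have h1 := Pool.Agent.N273.PQ.mw K A B hAB
  have h2 : AddGroup.FG (sW A B).toAffine.Point := by
    refine Pool.Agent.N273.PQ.fg_of_eq ?_ h1
    unfold sW WeierstrassCurve.baseChange
    ext <;> simp
  exact AddGroup.fg_of_surjective (f := (e.symm : (sW A B).toAffine.Point →+ _)) e.symm.surjective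

/-- rank zero and finitely many elements -/
theorem fin_gen {A : Type} [AddCommGroup A] (hA : AddGroup.FG A) :
    Module.finrank ℤ A = 0 ↔ Finite A := by
  haveI : Module.Finite ℤ A := Module.Finite.iff_addGroup_fg.2 hA
  constructor
  · intro h
    exact Module.finite_of_fg_torsion _ (Module.finrank_eq_zero_iff_isTorsion.1 h)
  · intro h
    refine Module.finrank_eq_zero_iff_isTorsion.2 ?_
    intro x
    refine ⟨⟨(Nat.card A : ℤ), ?_⟩, ?_⟩
    · rw [mem_nonZeroDivisors_iff_ne_zero]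
      exact_mod_cast Nat.card_pos.ne'
    · show (Nat.card A : ℤ) • x = 0
      rw [natCast_zsmul]
      exact card_nsmul_eq_zero'

/-- rank zero and finitely many points -/
theorem fin_wc (K : Type) [Field K] [NumberField K] (a b : K) (hb : b ≠ 0)
    (hab : a ^ 2 - 4 * b ≠ 0) : rk (wc a b) = 0 ↔ Finite (wc a b).toAffine.Point :=
  fin_gen (fg_wc K a b hb hab)

/-- rank zero and finitely many points -/
theorem fin_iff {D : ℕ} (hD : D ≠ 0) : rk (wc (13 * (D : ℚ)) (128 * (D : ℚ) ^ 2)) = 0 ↔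
    Finite (wc (13 * (D : ℚ)) (128 * (D : ℚ) ^ 2)).toAffine.Point := by
  have hDq : (D : ℚ) ≠ 0 := by exact_mod_cast hD
  refine fin_wc ℚ _ _ (mul_ne_zero (by norm_num) (pow_ne_zero 2 hDq)) ?_
  have : (13 * (D : ℚ)) ^ 2 - 4 * (128 * (D : ℚ) ^ 2) = -343 * (D : ℚ) ^ 2 := by ring
  rw [this]
  exact mul_ne_zero (by norm_num) (pow_ne_zero 2 hDq)

variable {m : ℕ} {P : Finset ℕ}

/-- two-power torsion -/
theorem pow_tors {G : Type} [AddCommGroup G] (h : ∀ x : G, 2 • x = 0 → x = 0) :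
    ∀ (n : ℕ) (x : G), 2 ^ n • x = 0 → x = 0 := by
  intro n
  induction n with
  | zero => intro x hx; rwa [pow_zero, one_nsmul] at hx
  | succ n ih =>
    intro x hx
    apply h
    apply ih
    rw [← mul_nsmul', ← pow_succ]
    exact hx

/-- **the criterion** -/
theorem HB.iff (H : HB m P) {D : ℕ} (hDe : D = (∏ p ∈ P, p) * m) :
    (Finite (wc (13 * (D : ℚ)) (128 * (D : ℚ) ^ 2)).toAffine.Point ∧
      ∀ (n : ℕ) (x : Sha (wc (13 * (D : ℚ)) (128 * (D : ℚ) ^ 2))), 2 ^ n • x = 0 → x = 0) ↔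
    kap m P = 1 := by
  have hD0 : D ≠ 0 := by
    have := H.sqf.ne_zero
    rw [← hDe] at this
    exact_mod_cast this
  obtain ⟨hfin, hb⟩ := H.bound hDe
  have hX0 : 0 < Nat.card {x : Sha (wc (13 * (D : ℚ)) (128 * (D : ℚ) ^ 2)) // 2 • x = 0} :=
    Nat.card_pos_iff.2 ⟨⟨⟨0, smul_zero 2⟩⟩, hfin⟩
  constructor
  · rintro ⟨h1, h2⟩
    have h3 := H.conv hDe h1
    have h4 : Nat.card {x : Sha (wc (13 * (D : ℚ)) (128 * (D : ℚ) ^ 2)) // 2 • x = 0} = 1 := by
      rw [Nat.card_eq_one_iff_unique]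
      refine ⟨⟨fun x y => ?_⟩, ⟨⟨0, smul_zero 2⟩⟩⟩
      apply Subtype.ext
      have hx := h2 1 x.1 (by rw [pow_one]; exact x.2)
      have hy := h2 1 y.1 (by rw [pow_one]; exact y.2)
      rw [hx, hy]
    have h5 : 0 < kap m P := by
      by_contra h
      have h6 : kap m P = 0 := by omega
      rw [h6, h4] at hb
      have : 0 < 2 ^ rk (wc (13 * (D : ℚ)) (128 * (D : ℚ) ^ 2)) := by positivity
      omega
    omega
  · intro hk
    rw [hk, one_pow] at hb
    set X := Nat.card {x : Sha (wc (13 * (D : ℚ)) (128 * (D : ℚ) ^ 2)) // 2 • x = 0} with hX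
    set r := rk (wc (13 * (D : ℚ)) (128 * (D : ℚ) ^ 2)) with hr
    have h2r : 0 < 2 ^ r := by positivity
    have hX1 : X = 1 := by nlinarith
    have hr0 : r = 0 := by
      by_contra h0
      have : 2 ≤ 2 ^ r := by
        calc 2 = 2 ^ 1 := by norm_num
          _ ≤ 2 ^ r := Nat.pow_le_pow_right (by norm_num) (by omega)
      nlinarith
    refine ⟨(fin_iff hD0).1 hr0, pow_tors fun y hy => ?_⟩
    have h4 := (Nat.card_eq_one_iff_unique.1 hX1).1
    exact congrArg Subtype.val (h4.elim ⟨y, hy⟩ ⟨0, smul_zero 2⟩)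

end Pool.Agent.U115.XP
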