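import Pool.Agent.U115.XP.Fin
import Pool.Agent.Y703.CQ.Fin
import Pool.Agent.U115.TP.N8
import Pool.Agent.Q283.TW.Arith

/-!
# The class of the twists
-/

set_option autoImplicit false
set_option linter.style.haveILetI false
set_option linter.unusedSectionVars false

open scoped Classical

namespace Pool.Agent.U115.XP

open Finset
open Pool.Agent.Y687 (sq_seven)
open Q283.TW (neg7_iff)
open Pool.Agent.Y703.CQ (Cl Sp In Ok S_DEN c2 Gd)

/-- the class -/
def Class (D : ℕ) : Prop := Squarefree D ∧ D % 8 = 1 ∧ ∀ p ∈ D.primeFactors,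
  (p % 8 = 1 ∧ (p % 7 = 1 ∨ p % 7 = 2 ∨ p % 7 = 4)) ∨
    (p ≠ 3 ∧ (p % 8 = 3 ∨ p % 8 = 5) ∧ (p % 7 = 3 ∨ p % 7 = 5 ∨ p % 7 = 6))

/-- the product modulo eight -/
lemma prod_mod_eight {S : Finset ℕ} (h : ∀ p ∈ S, p % 8 = 1 ∨ p % 8 = 3 ∨ p % 8 = 5) :
    (∏ p ∈ S, p) % 8 = 1 ↔ ((S.filter fun p => p % 8 = 5).card % 2 = 0 ∧
      (S.filter fun p => p % 8 = 3).card % 2 = 0) := by
  have key : (∏ p ∈ S, p) % 8 =
      if (S.filter fun p => p % 8 = 5).card % 2 = 0 then
        (if (S.filter fun p => p % 8 = 3).card % 2 = 0 then 1 else 3) else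
        (if (S.filter fun p => p % 8 = 3).card % 2 = 0 then 5 else 7) := by
    induction S using Finset.induction_on with
    | empty => rfl
    | insert q S hq ih =>
      have ih' := ih fun p hp => h p (Finset.mem_insert_of_mem hp)
      rw [Finset.prod_insert hq, Nat.mul_mod, ih', Finset.filter_insert, Finset.filter_insert]
      rcases h q (Finset.mem_insert_self q S) with h1 | h1 | h1
      · rw [if_neg (by omega : ¬ q % 8 = 5), if_neg (by omega : ¬ q % 8 = 3), h1]
        split_ifs <;> rfl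
      · rw [if_neg (by omega : ¬ q % 8 = 5), if_pos h1, h1,
          Finset.card_insert_of_notMem (fun h2 => hq (Finset.mem_filter.1 h2).1)]
        split_ifs <;> first | rfl | omega
      · rw [if_pos h1, if_neg (by omega : ¬ q % 8 = 3), h1,
          Finset.card_insert_of_notMem (fun h2 => hq (Finset.mem_filter.1 h2).1)]
        split_ifs <;> first | rfl | omega
  rw [key]
  split_ifs with h1 h2 h2 <;> simp [h1, h2]

lemma class_cl (D : ℕ) : Class D ↔ Squarefree D ∧ Cl {3, 5} {0} D.primeFactors := by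
  constructor
  · rintro ⟨h1, h2, h3⟩
    have h8 : ∀ p ∈ D.primeFactors, p % 8 = 1 ∨ p % 8 = 3 ∨ p % 8 = 5 := fun p hp => by
      rcases h3 p hp with h | ⟨-, h, -⟩
      · exact Or.inl h.1
      · exact Or.inr h
    have h4 : (∏ p ∈ D.primeFactors, p) % 8 = 1 := by
      rw [Nat.prod_primeFactors_of_squarefree h1]; exact h2
    obtain ⟨h5, h6⟩ := (prod_mod_eight h8).1 h4
    refine ⟨h1, fun p hp => ?_, h5, ?_⟩
    · have hpp := Nat.prime_of_mem_primeFactors hp
      rcases h3 p hp with h4 | ⟨h41, h42, h43⟩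
      · exact Or.inl ⟨hpp, h4⟩
      · exact Or.inr ⟨hpp, h41, by rw [Finset.mem_insert, Finset.mem_singleton]; exact h42, h43⟩
    · rw [h6]
      exact Finset.mem_singleton_self 0
  · rintro ⟨h1, h2, h3, h4⟩
    have h5 : ∀ p ∈ D.primeFactors,
        (p % 8 = 1 ∧ (p % 7 = 1 ∨ p % 7 = 2 ∨ p % 7 = 4)) ∨
        (p ≠ 3 ∧ (p % 8 = 3 ∨ p % 8 = 5) ∧ (p % 7 = 3 ∨ p % 7 = 5 ∨ p % 7 = 6)) := by
      intro p hp
      rcases h2 p hp with h | ⟨-, h', h'', h'''⟩
      · exact Or.inl h.2
      · rw [Finset.mem_insert, Finset.mem_singleton] at h''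
        exact Or.inr ⟨h', h'', h'''⟩
    have h8 : ∀ p ∈ D.primeFactors, p % 8 = 1 ∨ p % 8 = 3 ∨ p % 8 = 5 := fun p hp => by
      rcases h5 p hp with h | ⟨-, h, -⟩
      · exact Or.inl h.1
      · exact Or.inr h
    refine ⟨h1, ?_, h5⟩
    have h6 := (prod_mod_eight h8).2 ⟨h3, Finset.mem_singleton.1 h4⟩
    rwa [Nat.prod_primeFactors_of_squarefree h1] at h6

/-- the split primes -/
noncomputable def spl (D : ℕ) : Finset ℕ := D.primeFactors.filter fun p => p % 8 = 1

/-- the inert primes -/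
noncomputable def ine (D : ℕ) : Finset ℕ := D.primeFactors.filter fun p => p % 8 ≠ 1

lemma spl_ine (D : ℕ) : Disjoint (ine D) (spl D) := by
  rw [Finset.disjoint_left]
  intro p h1 h2
  exact (Finset.mem_filter.1 h1).2 (Finset.mem_filter.1 h2).2

lemma prod_eq {D : ℕ} (h : Squarefree D) : D = (∏ p ∈ spl D, p) * ∏ q ∈ ine D, q := by
  conv_lhs => rw [← Nat.prod_primeFactors_of_squarefree h]
  exact (Finset.prod_filter_mul_prod_filter_not _ _ _).symm

/-- the hypotheses of the descent -/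
theorem class_hb {D : ℕ} (h : Class D) : HB (∏ q ∈ ine D, q) (spl D) := by
  obtain ⟨h1, h2, h3⟩ := h
  have hP8 : ∀ p ∈ spl D, p % 8 = 1 := fun p hp => (Finset.mem_filter.1 hp).2
  refine ⟨?_, ?_, ?_, ?_⟩
  · have h4 := prod8 hP8
    have h5 := prod_eq h1
    rw [h5, Nat.mul_mod, h4] at h2
    omega
  · intro p hp
    have hp' := Finset.mem_filter.1 hp
    have hpp := Nat.prime_of_mem_primeFactors hp'.1
    haveI : Fact p.Prime := ⟨hpp⟩
    have hp8 := hp'.2
    refine ⟨hpp, hp8, by omega, (sq_seven p (by omega) (by omega)).2 ?_⟩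
    rcases h3 p hp'.1 with h | h
    · exact h.2
    · omega
  · rw [← prod_eq h1]
    exact Int.squarefree_natCast.2 h1
  · intro q hq hqm
    have hqD : q ∈ ine D := by
      rw [hq.prime.dvd_finsetProd_iff] at hqm
      obtain ⟨r, hr, hqr⟩ := hqm
      have hrp := Nat.prime_of_mem_primeFactors (Finset.mem_filter.1 hr).1
      rwa [(Nat.prime_dvd_prime_iff_eq hq hrp).1 hqr]
    have hq' := Finset.mem_filter.1 hqD
    haveI : Fact q.Prime := ⟨hq⟩
    have hq8 := hq'.2
    rcases h3 q hq'.1 with h | h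
    · exact absurd h.1 hq8
    · have q2 : q ≠ 2 := by rintro rfl; omega
      have q7 : q ≠ 7 := by rintro rfl; omega
      refine ⟨q2, q7, ?_, ?_⟩
      · rw [neg7_iff q q2 q7]
        omega
      · rw [ZMod.exists_sq_eq_two_iff q2]
        omega

/-- the number of the elements of the kernel -/
theorem class_kap {D : ℕ} (h : Class D) : kap (∏ q ∈ ine D, q) (spl D) =
    2 ^ ((spl D).card - (matF theta (ine D) (spl D)).rank) :=
  kap_eq (class_hb h) (fun _ hq => Nat.prime_of_mem_primeFactors (Finset.mem_filter.1 hq).1) rfl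
    (spl_ine D)

theorem class_gd {D : ℕ} (h : Class D) : kap (∏ q ∈ ine D, q) (spl D) = 1 ↔
    Gd theta D.primeFactors := by
  rw [class_kap h, kap_one, gd_iff]
  rfl

lemma ok35 : Ok {3, 5} {0} := ⟨Or.inr rfl, Or.inl (Finset.mem_singleton_self 0)⟩

/-- **the exact proportion** -/
theorem dens : Filter.Tendsto (fun X : ℕ =>
    (((Icc 1 X).filter fun D => Class D ∧ kap (∏ q ∈ ine D, q) (spl D) = 1).card : ℝ) /
    (((Icc 1 X).filter fun D => Class D).card : ℝ)) Filter.atTop (nhds c2) := by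
  have h := Pool.Agent.Y703.CQ.t_DEN {3, 5} {0} theta ok35
  refine h.congr fun X => congrArg₂ (fun a b : ℕ => (a : ℝ) / (b : ℝ)) ?_ ?_
  · refine congrArg Finset.card (Finset.ext fun D => ?_)
    rw [Finset.mem_filter, Finset.mem_filter]
    refine and_congr_right fun _ => ?_
    rw [← and_assoc, ← class_cl]
    exact and_congr_right fun hF => (class_gd hF).symm
  · refine congrArg Finset.card (Finset.ext fun D => ?_)
    rw [Finset.mem_filter, Finset.mem_filter]
    exact and_congr_right fun _ => (class_cl D).symm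

end Pool.Agent.U115.XP
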