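import Pool.Agent.U115.XP.AnQ

/-!
# The analytic order of the Tate-Shafarevich group over the fields of odd degree in rank zero
-/

set_option autoImplicit false
set_option linter.style.haveILetI false

open Finset NumberField NumberField.InfinitePlace IsDedekindDomain WeierstrassCurve MeasureTheory
  Filter Topology IsCyclotomicExtension.Rat H300.HW

namespace Pool.Agent.U115.XP

open scoped Classical

open Pool.Agent.TH841.NF.D (Sha)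

open Pool.Agent.W97.MT (ap E14 II)

open Pool.Agent.Y700 (WM)

open Pool.Agent.Y682 (NCl)

open Pool.Agent.Y682.XF Pool.Agent.Y682.XT Pool.Agent.Y682.XD
open Pool.Agent.Y687 (SS)
open Pool.Agent.U115.TP (exists_cyc3 sum_SS)

/-- `L(1) √|Δ_K| #tors² / (Ω Tam)` -/
def IsZK (K : Type) [Field K] [NumberField K] (W : WeierstrassCurve ℤ) (z : ℚ) : Prop :=
  ∃ L : ℂ → ℂ, Differentiable ℂ L ∧ (∀ s : ℂ, 3 / 2 < s.re → HasProd (factor (K := K) W s) (L s)) ∧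
    0 < Omega K W ∧ 0 < Tam K W ∧ 0 < Nat.card (tors K W) ∧
    L 1 * ((√|(discr K : ℝ)| : ℝ) : ℂ) * (Nat.card (tors K W) : ℂ) ^ 2 =
      (z : ℂ) * ((Omega K W : ℝ) : ℂ) * (Tam K W : ℂ)

/-- the analytic order of the Tate-Shafarevich group of `E_D` over `K` in rank zero -/
theorem value_K (H : Pool.Agent.Y682.XF.Parts) (q : ℕ) [NeZero q] (hq : IsPrimePow q)
    (hco : q.Coprime 14) (M : Type) [Field M] [NumberField M] [IsCyclotomicExtension {q} ℚ M]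
    (K : IntermediateField ℚ M) (hodd : Odd (Module.finrank ℚ K))
    (hcl : 3 ∣ q ∨ ((Ideal.span {((2 : ℕ) : 𝓞 K)}).IsPrime ∧
      (Ideal.span {((7 : ℕ) : 𝓞 K)}).IsPrime ∧ Odd (Nat.card (NCl K))))
    {D : ℕ} (hDsq : Squarefree (D : ℤ)) (hD4 : D % 4 = 1) (hD1 : 1 < D)
    (hDp : ∀ p : ℕ, p.Prime → p ∣ D → ¬ p ∣ 14 * q ∧ (Ideal.span {((p : ℕ) : 𝓞 K)}).IsPrime)
    {Gd : Prop}
    (hval : ∀ (s t : ℚ → ℤ) (Op Om : ℝ), Pool.Agent.Y682.XD.Sy s t Op Om →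
      ∃ o : ℤ, SS s D D = 2 ^ (∑ p ∈ D.primeFactors, (if IsSquare (-7 : ZMod p) then 2 else 1)) * o ∧
        (Odd o ↔ Gd)) :
    ∃ z : ℚ, IsZK K (WM (D : ℤ)) z ∧ Odd z.den ∧ (Odd z.num ↔ Gd) := by
  -- the field
  obtain ⟨h2, h7, hN⟩ : (Ideal.span {((2 : ℕ) : 𝓞 K)}).IsPrime ∧
      (Ideal.span {((7 : ℕ) : 𝓞 K)}).IsPrime ∧ Odd (Nat.card (NCl K)) := by
    rcases hcl with h3 | h
    · obtain ⟨n, hn⟩ : ∃ n, q = 3 ^ (n + 1) := by
        obtain ⟨l, k, hl, hk, rfl⟩ := hq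
        have hl' := hl.nat_prime
        have h4 : l = 3 := ((Nat.prime_dvd_prime_iff_eq Nat.prime_three hl').1
          (Nat.prime_three.dvd_of_dvd_pow h3)).symm
        subst h4
        exact ⟨k - 1, by rw [Nat.sub_add_cancel hk]⟩
      have key : ∀ (q' : ℕ) [NeZero q'] (M : Type) [Field M] [NumberField M]
          [IsCyclotomicExtension {q'} ℚ M] (n : ℕ), q' = 3 ^ (n + 1) →
          ∀ (K' : IntermediateField ℚ M), Odd (Module.finrank ℚ K') →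
          (Ideal.span {((2 : ℕ) : 𝓞 K')}).IsPrime ∧
          (Ideal.span {((7 : ℕ) : 𝓞 K')}).IsPrime ∧ Odd (Nat.card (NCl K')) := by
        intro q' _ M _ _ _ n hn K' hodd'
        subst hn
        exact three_hyp n M K' hodd'
      exact key q M n hn K hodd
    · exact h
  have hd0 : ((D : ℤ)).natAbs ≠ 0 := by omega
  have hDn : ((D : ℤ)).natAbs = D := Int.natAbs_natCast D
  have hz1 : NeZero ((D : ℤ)).natAbs := ⟨hd0⟩
  have hz0 : NeZero D := ⟨by omega⟩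
  have hz2 : NeZero (q * ((D : ℤ)).natAbs) := ⟨Nat.mul_ne_zero (NeZero.ne q) hd0⟩
  have hpd : ∀ p : ℕ, p.Prime → p ∣ ((D : ℤ)).natAbs → ¬ p ∣ 14 * q ∧
      (Ideal.span {((p : ℕ) : 𝓞 K)}).IsPrime := by
    intro p hp hpd
    rw [hDn] at hpd
    exact hDp p hp hpd
  have hD4' : (D : ℤ) % 4 = 1 := by omega
  have hD14 : ((D : ℤ)).natAbs.Coprime 14 := by
    refine Nat.coprime_of_dvd ?_
    intro p hp hpd' hp14
    exact (hpd p hp hpd').1 (dvd_mul_of_dvd_left hp14 _)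
  have hDi : ∀ p : ℕ, p.Prime → (p : ℤ) ∣ (D : ℤ) → (Ideal.span {((p : ℕ) : 𝓞 K)}).IsPrime :=
    fun p hp h => (hDp p hp (Int.natCast_dvd_natCast.1 h)).2
  have hDiQ : ∀ p : ℕ, p.Prime → (p : ℤ) ∣ (D : ℤ) → (Ideal.span {((p : ℕ) : 𝓞 ℚ)}).IsPrime :=
    fun p hp _ => prime_Q hp
  have hoddQ : Odd (Module.finrank ℚ ℚ) := by rw [Module.finrank_self]; exact odd_one
  obtain ⟨s, t, P, Op, Om, hSy, g2, g3, hP⟩ := exists_syP
  have hypK : HypK s (fun l => ap E14 l) q M K := hypK_of H.apev hSy hq hco hodd h2 h7 hN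
  have hgen : ∀ p : ℕ, p.Prime → p ∣ ((D : ℤ)).natAbs → ¬ p ∣ 14 * q ∧
      ∀ t : (ZMod q)ˣ, (t : ZMod q) = (p : ZMod q) →
        ∀ x : GG q M K, x ∈ Subgroup.zpowers (mkG q M K t) := fun p hp hpd' =>
    ⟨(hpd p hp hpd').1, fun t ht =>
      gen_of_prime (K := K) (L := M) Pool.Agent.Y692.XT.inert hp ht (hpd p hp hpd').2⟩
  obtain ⟨G₀, Pr, hG₀, hPr, htop, hE0, hE, ⟨ρ₁, hρ₁, hρ₁v, hval1⟩, δ, hδj, gg, hgg, hgG⟩ :=
    ana_D (L := M) (K := K) Pool.Agent.Y884.XT.s_lk H.nz H.lkd H.trd H.kd H.hecke H.prim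
      Pool.Agent.Y405.XT.s_det Pool.Agent.Y41.XT.s_l1 Pool.Agent.Y125.XT.s_res
      Pool.Agent.Y363.XT.s_units hSy hypK hN hDsq hD4' rfl hgen
  -- the field is totally real
  obtain ⟨φ, -⟩ := exists_phi q M
  have hreal : ∀ w : InfinitePlace K, w.IsReal := real_place (φ := φ) hypK.hre
  have hcplx : nrComplexPlaces K = 0 := nr_real (φ := φ) hypK.hre
  have hrp : nrRealPlaces K = Module.finrank ℚ K := by
    have := card_add_two_mul_card_eq_rank K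
    rw [← this, hcplx, mul_zero, add_zero]
  -- the period
  have hDpos : (0 : ℤ) < (D : ℤ) := by omega
  set w : ℝ := 2 * (if 0 < (D : ℤ) then Op else Om) / √|((D : ℤ) : ℝ)| with hw
  have hDR : ((D : ℤ) : ℝ) ≠ 0 := by exact_mod_cast hDpos.ne'
  have hsD : 0 < √|((D : ℤ) : ℝ)| := Real.sqrt_pos.2 (abs_pos.2 hDR)
  have hw0 : 0 < w := by
    rw [hw]
    refine div_pos (mul_pos two_pos ?_) hsD
    rw [if_pos hDpos]
    exact hSy.pos
  have hper : realPeriod (WM (D : ℤ)) = w := H.perd P Op Om hSy.pos hSy.pos' g2 g3 hP (D : ℤ) hD4'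
  have hOQ : Omega ℚ (WM (D : ℤ)) = w := by
    unfold Omega
    rw [hper, nr_Q.1, nr_Q.2, pow_zero, mul_one, pow_one]
  have hOK : Omega K (WM (D : ℤ)) = w ^ Module.finrank ℚ K := by
    unfold Omega
    rw [hper, hcplx, hrp, pow_zero, mul_one]
  -- the curve
  have hΔ : (WM (D : ℤ)).Δ ≠ 0 := by
    intro h0
    apply wm_disc_ne ℚ hD4'
    rw [WeierstrassCurve.map_Δ, h0, map_zero]
  obtain ⟨hTf', hTv'⟩ := H.tamd H.tg H.t7 H.t2 H.ti H.ts (D : ℤ) hDsq hD4' hD14 ℚ hoddQ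
    (prime_Q Nat.prime_two) (prime_Q (by norm_num)) hDiQ
  obtain ⟨hTf, hTv⟩ := H.tamd H.tg H.t7 H.t2 H.ti H.ts (D : ℤ) hDsq hD4' hD14 K hodd h2 h7 hDi
  have hT0 : Tam K (WM (D : ℤ)) ≠ 0 := by
    intro h0
    rw [h0, show padicValNat 2 0 = 0 by simp] at hTv
    omega
  have hT0' : Tam ℚ (WM (D : ℤ)) ≠ 0 := by
    intro h0
    rw [h0, show padicValNat 2 0 = 0 by simp] at hTv'
    omega
  obtain ⟨-, htv⟩ := H.tord (D : ℤ) hD4' K hodd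
  have ht0 : Nat.card (tors K (WM (D : ℤ))) ≠ 0 := by
    intro h0
    rw [h0, show padicValNat 2 0 = 0 by simp] at htv
    omega
  obtain ⟨-, htv'⟩ := H.tord (D : ℤ) hD4' ℚ hoddQ
  have ht0' : Nat.card (tors ℚ (WM (D : ℤ))) ≠ 0 := by
    intro h0
    rw [h0, show padicValNat 2 0 = 0 by simp] at htv'
    omega
  set T₀ := Tam ℚ (WM (D : ℤ)) with hT₀
  set t₀ := Nat.card (tors ℚ (WM (D : ℤ))) with ht₀
  set T := Tam K (WM (D : ℤ)) with hT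
  set tt := Nat.card (tors K (WM (D : ℤ))) with htt
  -- the value
  have hf4 : ((D : ℤ)).natAbs % 4 = 1 := by omega
  have hsum := sum_SS hSy.re (by omega) hf4 hδj
  obtain ⟨o, hk, ho⟩ := hval s t Op Om hSy
  rw [← hDn] at hk
  set e₂ := ∑ p ∈ ((D : ℤ)).natAbs.primeFactors, (if IsSquare (-7 : ZMod p) then 2 else 1) with he₂
  rw [hk] at hsum
  rw [hsum] at hgG
  rw [if_pos hDpos, one_mul] at hgg
  have hOp : (Op : ℂ) ≠ 0 := by exact_mod_cast hSy.pos.ne'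
  have hD2 : √|((D : ℤ) : ℝ)| = √(((D : ℤ)).natAbs : ℝ) := by
    congr 1
    rw [Nat.cast_natAbs, Int.cast_abs]
  have hsd : ((√(((D : ℤ)).natAbs : ℝ) : ℝ) : ℂ) ^ 2 = (((D : ℤ)).natAbs : ℂ) := by
    rw [← Complex.ofReal_pow, Real.sq_sqrt (Nat.cast_nonneg _)]
    push_cast
    rfl
  obtain ⟨e, he, hge⟩ : ∃ e : ℚ, (e = 1 ∨ e = -1) ∧
      gg = (e : ℂ) * ((√(((D : ℤ)).natAbs : ℝ) : ℝ) : ℂ) := by
    rcases sq_eq_sq_iff_eq_or_eq_neg.1 (hgg.trans hsd.symm) with h3 | h3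
    · exact ⟨1, Or.inl rfl, by push_cast; rw [one_mul]; exact h3⟩
    · exact ⟨-1, Or.inr rfl, by push_cast; rw [neg_one_mul]; exact h3⟩
  have hsd0 : ((√(((D : ℤ)).natAbs : ℝ) : ℝ) : ℂ) ≠ 0 := by
    rw [← hD2]
    exact_mod_cast hsD.ne'
  have hee : (e : ℂ) * e = 1 := by
    rcases he with rfl | rfl <;> norm_num
  have hwd : (w : ℂ) * ((√(((D : ℤ)).natAbs : ℝ) : ℝ) : ℂ) = 2 * Op := by
    have h8 : w * √(((D : ℤ)).natAbs : ℝ) = 2 * Op := by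
      rw [hw, if_pos hDpos, hD2, div_mul_cancel₀]
      rw [← hD2]
      exact hsD.ne'
    exact_mod_cast h8
  have hGv : G₀ 1 = e * (2 ^ e₂ * o / 6) * w := by
    have h9 : (e : ℂ) * ((√(((D : ℤ)).natAbs : ℝ) : ℝ) : ℂ) * G₀ 1 =
        (Op / 3 : ℂ) * (2 ^ e₂ * o) := by
      rw [← hge]
      rw [hgG]
      push_cast
      ring
    apply mul_right_cancel₀ hsd0
    linear_combination (e : ℂ) * h9 - G₀ 1 * ((√(((D : ℤ)).natAbs : ℝ) : ℝ) : ℂ) * hee -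
      (e * (2 ^ e₂ * (o : ℂ) / 6)) * hwd
  have hfact : Fact (Nat.Prime 2) := ⟨Nat.prime_two⟩
  have hval2 : padicValNat 2 T₀ = 1 + e₂ := hTv'
  have he0 : e ≠ 0 := by rcases he with rfl | rfl <;> norm_num
  have htQ : (t₀ : ℚ) ≠ 0 := by exact_mod_cast ht0'
  have hTQ : (T₀ : ℚ) ≠ 0 := by exact_mod_cast hT0'
  have h22 : padicValRat 2 (2 : ℚ) = 1 := by
    have := padicValRat.self (p := 2) (by norm_num)
    exact_mod_cast this
  have h6 : padicValRat 2 (6 : ℚ) = 1 := by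
    rw [show (6 : ℚ) = 2 * (3 : ℕ) by norm_num, padicValRat.mul two_ne_zero (by norm_num),
      h22, padicValRat.of_nat, val_odd (by decide)]
    norm_num
  have hune : (2 : ℚ) ^ e₂ * (t₀ : ℚ) ^ 2 / (6 * T₀) ≠ 0 :=
    div_ne_zero (mul_ne_zero (pow_ne_zero _ two_ne_zero) (pow_ne_zero _ htQ))
      (mul_ne_zero (by norm_num) hTQ)
  have hmain : padicValRat 2 ((2 : ℚ) ^ e₂ * (t₀ : ℚ) ^ 2 / (6 * T₀)) = 0 := by
    rw [padicValRat.div (mul_ne_zero (pow_ne_zero _ two_ne_zero)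
      (pow_ne_zero _ htQ)) (mul_ne_zero (by norm_num) hTQ),
      padicValRat.mul (pow_ne_zero _ two_ne_zero) (pow_ne_zero _ htQ), padicValRat.pow,
      padicValRat.pow, padicValRat.mul (by norm_num) hTQ, h22, h6, padicValRat.of_nat,
      padicValRat.of_nat, hval2, htv']
    push_cast
    ring
  have hu : padicValRat 2 (e * ((2 : ℚ) ^ e₂ * (t₀ : ℚ) ^ 2 / (6 * T₀))) = 0 := by
    rcases he with rfl | rfl
    · rw [one_mul]; exact hmain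
    · rw [neg_one_mul, padicValRat.neg]; exact hmain
  have c1 : ((tt : ℚ) / t₀) ≠ 0 := div_ne_zero (by exact_mod_cast ht0) (by exact_mod_cast ht0')
  have c4 : ((T₀ : ℚ) / T) ≠ 0 := div_ne_zero (by exact_mod_cast hT0') (by exact_mod_cast hT0)
  have cρ : ρ₁ * ((tt : ℚ) / t₀) ^ 2 * ((T₀ : ℚ) / T) ≠ 0 :=
    mul_ne_zero (mul_ne_zero hρ₁ (pow_ne_zero _ c1)) c4
  have vρ : padicValRat 2 (ρ₁ * ((tt : ℚ) / t₀) ^ 2 * ((T₀ : ℚ) / T)) = 0 := by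
    rw [padicValRat.mul (mul_ne_zero hρ₁ (pow_ne_zero _ c1)) c4,
      padicValRat.mul hρ₁ (pow_ne_zero _ c1), padicValRat.pow,
      val_div_eq ht0 ht0' (htv.trans htv'.symm), val_div_eq hT0' hT0 (hTv'.trans hTv.symm), hρ₁v]
    norm_num
  have hu2 : padicValRat 2 ((e * ((2 : ℚ) ^ e₂ * (t₀ : ℚ) ^ 2 / (6 * T₀))) *
      (ρ₁ * ((tt : ℚ) / t₀) ^ 2 * ((T₀ : ℚ) / T))) = 0 := by
    rw [padicValRat.mul (mul_ne_zero he0 hune) cρ, hu, vρ, add_zero]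
  obtain ⟨k1, k2⟩ := odd_mul (mul_ne_zero (mul_ne_zero he0 hune) cρ) hu2 o
  refine ⟨(o : ℚ) * ((e * ((2 : ℚ) ^ e₂ * (t₀ : ℚ) ^ 2 / (6 * T₀))) *
      (ρ₁ * ((tt : ℚ) / t₀) ^ 2 * ((T₀ : ℚ) / T))), ⟨fun z => G₀ z * Pr z, hG₀.mul hPr, hE,
    by rw [hOK]; exact pow_pos hw0 _, Nat.pos_of_ne_zero hT0, Nat.pos_of_ne_zero ht0, ?_⟩, k1,
    k2.trans ho⟩
  set N := Module.finrank ℚ K with hNdef
  have hN0 : N ≠ 0 := by
    intro h0
    rw [h0] at hodd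
    exact absurd hodd (by decide)
  have hwN : w ^ N = w * w ^ (N - 1) := by
    rw [← pow_succ', Nat.sub_add_cancel (Nat.pos_of_ne_zero hN0)]
  rw [hOK, hwN, ← hT, ← htt]
  have hv : Pr 1 * ((√|(discr K : ℝ)| : ℝ) : ℂ) = ρ₁ * ((w ^ (N - 1) : ℝ) : ℂ) := hval1
  have e3 : G₀ 1 * Pr 1 * ((√|(discr K : ℝ)| : ℝ) : ℂ) * (tt : ℂ) ^ 2 =
      G₀ 1 * (Pr 1 * ((√|(discr K : ℝ)| : ℝ) : ℂ)) * (tt : ℂ) ^ 2 := by ring
  rw [e3, hv, hGv]
  push_cast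
  have d5 : (T₀ : ℂ) ≠ 0 := by exact_mod_cast hT0'
  have d6 : (T : ℂ) ≠ 0 := by exact_mod_cast hT0
  have d7 : (t₀ : ℂ) ≠ 0 := by exact_mod_cast ht0'
  generalize (w : ℂ) ^ (N - 1) = X
  field_simp

end Pool.Agent.U115.XP
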