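import Pool.Agent.U115.TP.TPQ

/-!
# The analytic order of the Tate-Shafarevich group over `ℚ` in rank zero, in general
-/

set_option autoImplicit false
set_option linter.style.haveILetI false

open Finset NumberField NumberField.InfinitePlace IsDedekindDomain WeierstrassCurve MeasureTheory
  Filter Topology IsCyclotomicExtension.Rat H300.HW

namespace Pool.Agent.U115.XP

open scoped Classical

open Pool.Agent.TH841.NF.D (Sha)

open Pool.Agent.W97.MT (ap E14 II)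

open Pool.Agent.Y700 (WM)

open Pool.Agent.Y682 (NCl)

open Pool.Agent.Y682.XF Pool.Agent.Y682.XT Pool.Agent.Y682.XD
open Pool.Agent.Y687 (SS)
open Pool.Agent.U115.TP (exists_cyc3 sum_SS)

/-- the numerator and the denominator of a rational number with 2-adic valuation zero -/
theorem odd_parts {u : ℚ} (hu : u ≠ 0) (h : padicValRat 2 u = 0) : Odd u.num ∧ Odd u.den := by
  unfold padicValRat at h
  have hc := u.reduced
  have hn0 : u.num ≠ 0 := Rat.num_ne_zero.2 hu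
  have h1 : padicValInt 2 u.num = padicValNat 2 u.den := by omega
  have key : ¬ (2 ∣ u.num.natAbs ∧ 2 ∣ u.den) := by
    rintro ⟨a, b⟩
    have := Nat.dvd_gcd a b
    rw [hc] at this
    omega
  have f2 : Fact (Nat.Prime 2) := ⟨Nat.prime_two⟩
  by_cases a : 2 ∣ u.num.natAbs
  · have b : ¬ 2 ∣ u.den := fun b => key ⟨a, b⟩
    have e1 : padicValNat 2 u.den = 0 := padicValNat.eq_zero_of_not_dvd b
    rw [e1] at h1
    have h2 : 1 ≤ padicValNat 2 u.num.natAbs :=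
      one_le_padicValNat_of_dvd (Int.natAbs_ne_zero.2 hn0) a
    unfold padicValInt at h1
    omega
  · have e1 : padicValInt 2 u.num = 0 := by
      unfold padicValInt
      exact padicValNat.eq_zero_of_not_dvd a
    rw [e1] at h1
    have b : ¬ 2 ∣ u.den := by
      intro b
      have := one_le_padicValNat_of_dvd u.den_ne_zero b
      omega
    refine ⟨?_, ?_⟩
    · rw [← Int.natAbs_odd, ← Nat.not_even_iff_odd, even_iff_two_dvd]
      exact a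
    · rw [← Nat.not_even_iff_odd, even_iff_two_dvd]
      exact b

/-- an integer times a 2-adic unit -/
theorem odd_mul {u : ℚ} (hu : u ≠ 0) (h : padicValRat 2 u = 0) (o : ℤ) :
    Odd ((o : ℚ) * u).den ∧ (Odd ((o : ℚ) * u).num ↔ Odd o) := by
  obtain ⟨h1, h2⟩ := odd_parts hu h
  set z : ℚ := (o : ℚ) * u with hz
  have hd : z.den ∣ u.den := by
    have := Rat.mul_den_dvd (o : ℚ) u
    rwa [Rat.den_intCast, one_mul] at this
  have hzd : Odd z.den := Odd.of_dvd_nat h2 hd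
  refine ⟨hzd, ?_⟩
  have e1 : z.num * u.den = o * u.num * z.den := by
    have a1 : (z.num : ℚ) = z * z.den := (Rat.mul_den_eq_num z).symm
    have a2 : (u.num : ℚ) = u * u.den := (Rat.mul_den_eq_num u).symm
    have : (z.num : ℚ) * u.den = o * u.num * z.den := by
      rw [a1, a2, hz]; ring
    exact_mod_cast this
  have hud : Odd (u.den : ℤ) := by exact_mod_cast h2
  have hzd' : Odd (z.den : ℤ) := by exact_mod_cast hzd
  constructor
  · intro h3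
    have h4 : Odd (o * u.num * z.den) := by rw [← e1]; exact h3.mul hud
    exact (Int.odd_mul.1 (Int.odd_mul.1 h4).1).1
  · intro h3
    have h4 : Odd (z.num * u.den) := by rw [e1]; exact (h3.mul h1).mul hzd'
    exact (Int.odd_mul.1 h4).1

/-- `L(1) #tors² / (Ω Tam)` -/
def IsZ (W : WeierstrassCurve ℤ) (z : ℚ) : Prop :=
  ∃ L : ℂ → ℂ, Differentiable ℂ L ∧ (∀ s : ℂ, 3 / 2 < s.re → HasProd (factor (K := ℚ) W s) (L s)) ∧
    0 < Omega ℚ W ∧ 0 < Tam ℚ W ∧ 0 < Nat.card (tors ℚ W) ∧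
    L 1 * (Nat.card (tors ℚ W) : ℂ) ^ 2 = (z : ℂ) * ((Omega ℚ W : ℝ) : ℂ) * (Tam ℚ W : ℂ)

/-- the analytic order of the Tate-Shafarevich group of `E_D` over `ℚ` in rank zero -/
theorem value_Q (H : Pool.Agent.Y682.XF.Parts) {D : ℕ} (hDsq : Squarefree (D : ℤ)) (hD4 : D % 4 = 1)
    (hD42 : D.Coprime 42) (hD1 : 1 < D) {Gd : Prop}
    (hval : ∀ (s t : ℚ → ℤ) (Op Om : ℝ), Pool.Agent.Y682.XD.Sy s t Op Om →
      ∃ o : ℤ, SS s D D = 2 ^ (∑ p ∈ D.primeFactors, (if IsSquare (-7 : ZMod p) then 2 else 1)) * o ∧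
        (Odd o ↔ Gd)) :
    ∃ z : ℚ, IsZ (WM (D : ℤ)) z ∧ Odd z.den ∧ (Odd z.num ↔ Gd) := by
  -- the field
  obtain ⟨M, _, _, _, K, hK⟩ : ∃ (M : Type) (_ : Field M) (_ : NumberField M)
      (_ : IsCyclotomicExtension {3} ℚ M) (K : IntermediateField ℚ M), K = ⊥ :=
    exists_cyc3
  have hq : IsPrimePow 3 := Nat.prime_three.isPrimePow
  have hco : Nat.Coprime 3 14 := by norm_num
  have e0 : ℚ ≃+* K := by
    rw [hK]
    exact (IntermediateField.botEquiv ℚ M).symm.toRingEquiv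
  have hprime : ∀ p : ℕ, p.Prime → (Ideal.span {((p : ℕ) : 𝓞 K)}).IsPrime :=
    fun p hp => prime_tr e0 p (prime_Q hp)
  have hfin : Module.finrank ℚ K = 1 := by
    rw [hK]
    exact IntermediateField.finrank_bot
  have hodd : Odd (Module.finrank ℚ K) := by rw [hfin]; exact odd_one
  have key : ∀ (q' : ℕ) [NeZero q'] (M : Type) [Field M] [NumberField M]
      [IsCyclotomicExtension {q'} ℚ M] (n : ℕ), q' = 3 ^ (n + 1) →
      ∀ (K' : IntermediateField ℚ M), Odd (Module.finrank ℚ K') →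
      (Ideal.span {((2 : ℕ) : 𝓞 K')}).IsPrime ∧
      (Ideal.span {((7 : ℕ) : 𝓞 K')}).IsPrime ∧ Odd (Nat.card (NCl K')) := by
    intro q' _ M _ _ _ n hn K' hodd'
    subst hn
    exact three_hyp n M K' hodd'
  obtain ⟨h2, h7, hN⟩ := key 3 M 0 (by norm_num) K hodd
  have hd0 : ((D : ℤ)).natAbs ≠ 0 := by omega
  have hDn : ((D : ℤ)).natAbs = D := Int.natAbs_natCast D
  have hz1 : NeZero ((D : ℤ)).natAbs := ⟨hd0⟩
  have hz0 : NeZero D := ⟨by omega⟩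
  have hz2 : NeZero (3 * ((D : ℤ)).natAbs) := ⟨Nat.mul_ne_zero (by norm_num) hd0⟩
  have hpd : ∀ p : ℕ, p.Prime → p ∣ ((D : ℤ)).natAbs → ¬ p ∣ 14 * 3 ∧
      (Ideal.span {((p : ℕ) : 𝓞 K)}).IsPrime := by
    intro p hp hpd
    rw [hDn] at hpd
    refine ⟨fun h => ?_, hprime p hp⟩
    have h3 : p ∣ Nat.gcd D 42 := Nat.dvd_gcd hpd (by simpa using h)
    rw [hD42] at h3
    exact hp.one_lt.ne' (Nat.dvd_one.1 h3)
  have hD4' : (D : ℤ) % 4 = 1 := by omega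
  have hD14 : ((D : ℤ)).natAbs.Coprime 14 := by
    refine Nat.coprime_of_dvd ?_
    intro p hp hpd' hp14
    exact (hpd p hp hpd').1 (dvd_mul_of_dvd_left hp14 _)
  have hDiQ : ∀ p : ℕ, p.Prime → (p : ℤ) ∣ (D : ℤ) → (Ideal.span {((p : ℕ) : 𝓞 ℚ)}).IsPrime :=
    fun p hp _ => prime_Q hp
  have hoddQ : Odd (Module.finrank ℚ ℚ) := by rw [Module.finrank_self]; exact odd_one
  obtain ⟨s, t, P, Op, Om, hSy, g2, g3, hP⟩ := exists_syP
  have hypK : HypK s (fun l => ap E14 l) 3 M K := hypK_of H.apev hSy hq hco hodd h2 h7 hN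
  have hgen : ∀ p : ℕ, p.Prime → p ∣ ((D : ℤ)).natAbs → ¬ p ∣ 14 * 3 ∧
      ∀ t : (ZMod 3)ˣ, (t : ZMod 3) = (p : ZMod 3) →
        ∀ x : GG 3 M K, x ∈ Subgroup.zpowers (mkG 3 M K t) := fun p hp hpd' =>
    ⟨(hpd p hp hpd').1, fun t ht =>
      gen_of_prime (K := K) (L := M) Pool.Agent.Y692.XT.inert hp ht (hpd p hp hpd').2⟩
  obtain ⟨G₀, Pr, hG₀, hPr, htop, hE0, hE, ⟨ρ₁, hρ₁, hρ₁v, hval1⟩, δ, hδj, gg, hgg, hgG⟩ :=
    ana_D (L := M) (K := K) Pool.Agent.Y884.XT.s_lk H.nz H.lkd H.trd H.kd H.hecke H.prim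
      Pool.Agent.Y405.XT.s_det Pool.Agent.Y41.XT.s_l1 Pool.Agent.Y125.XT.s_res
      Pool.Agent.Y363.XT.s_units hSy hypK hN hDsq hD4' rfl hgen
  -- the period
  have hDpos : (0 : ℤ) < (D : ℤ) := by omega
  set w : ℝ := 2 * (if 0 < (D : ℤ) then Op else Om) / √|((D : ℤ) : ℝ)| with hw
  have hDR : ((D : ℤ) : ℝ) ≠ 0 := by exact_mod_cast hDpos.ne'
  have hsD : 0 < √|((D : ℤ) : ℝ)| := Real.sqrt_pos.2 (abs_pos.2 hDR)
  have hw0 : 0 < w := by
    rw [hw]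
    refine div_pos (mul_pos two_pos ?_) hsD
    rw [if_pos hDpos]
    exact hSy.pos
  have hper : realPeriod (WM (D : ℤ)) = w := H.perd P Op Om hSy.pos hSy.pos' g2 g3 hP (D : ℤ) hD4'
  have hOQ : Omega ℚ (WM (D : ℤ)) = w := by
    unfold Omega
    rw [hper, nr_Q.1, nr_Q.2, pow_zero, mul_one, pow_one]
  -- the curve
  have hΔ : (WM (D : ℤ)).Δ ≠ 0 := by
    intro h0
    apply wm_disc_ne ℚ hD4'
    rw [WeierstrassCurve.map_Δ, h0, map_zero]
  obtain ⟨hTf', hTv'⟩ := H.tamd H.tg H.t7 H.t2 H.ti H.ts (D : ℤ) hDsq hD4' hD14 ℚ hoddQ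
    (prime_Q Nat.prime_two) (prime_Q (by norm_num)) hDiQ
  have hT0' : Tam ℚ (WM (D : ℤ)) ≠ 0 := by
    intro h0
    rw [h0, show padicValNat 2 0 = 0 by simp] at hTv'
    omega
  obtain ⟨-, htv'⟩ := H.tord (D : ℤ) hD4' ℚ hoddQ
  have ht0' : Nat.card (tors ℚ (WM (D : ℤ))) ≠ 0 := by
    intro h0
    rw [h0, show padicValNat 2 0 = 0 by simp] at htv'
    omega
  set T₀ := Tam ℚ (WM (D : ℤ)) with hT₀
  set t₀ := Nat.card (tors ℚ (WM (D : ℤ))) with ht₀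
  -- the value
  have hf4 : ((D : ℤ)).natAbs % 4 = 1 := by omega
  have hsum := sum_SS hSy.re (by omega) hf4 hδj
  obtain ⟨o, hk, ho⟩ := hval s t Op Om hSy
  rw [← hDn] at hk
  set e₂ := ∑ p ∈ ((D : ℤ)).natAbs.primeFactors, (if IsSquare (-7 : ZMod p) then 2 else 1) with he₂
  rw [hk] at hsum
  rw [hsum] at hgG
  rw [if_pos hDpos, one_mul] at hgg
  have hOp : (Op : ℂ) ≠ 0 := by exact_mod_cast hSy.pos.ne'
  have hD2 : √|((D : ℤ) : ℝ)| = √(((D : ℤ)).natAbs : ℝ) := by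
    congr 1
    rw [Nat.cast_natAbs, Int.cast_abs]
  have hsd : ((√(((D : ℤ)).natAbs : ℝ) : ℝ) : ℂ) ^ 2 = (((D : ℤ)).natAbs : ℂ) := by
    rw [← Complex.ofReal_pow, Real.sq_sqrt (Nat.cast_nonneg _)]
    push_cast
    rfl
  obtain ⟨e, he, hge⟩ : ∃ e : ℚ, (e = 1 ∨ e = -1) ∧
      gg = (e : ℂ) * ((√(((D : ℤ)).natAbs : ℝ) : ℝ) : ℂ) := by
    rcases sq_eq_sq_iff_eq_or_eq_neg.1 (hgg.trans hsd.symm) with h3 | h3
    · exact ⟨1, Or.inl rfl, by push_cast; rw [one_mul]; exact h3⟩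
    · exact ⟨-1, Or.inr rfl, by push_cast; rw [neg_one_mul]; exact h3⟩
  have hsd0 : ((√(((D : ℤ)).natAbs : ℝ) : ℝ) : ℂ) ≠ 0 := by
    rw [← hD2]
    exact_mod_cast hsD.ne'
  have hee : (e : ℂ) * e = 1 := by
    rcases he with rfl | rfl <;> norm_num
  have hwd : (w : ℂ) * ((√(((D : ℤ)).natAbs : ℝ) : ℝ) : ℂ) = 2 * Op := by
    have h8 : w * √(((D : ℤ)).natAbs : ℝ) = 2 * Op := by
      rw [hw, if_pos hDpos, hD2, div_mul_cancel₀]
      rw [← hD2]
      exact hsD.ne'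
    exact_mod_cast h8
  have hGv : G₀ 1 = e * (2 ^ e₂ * o / 6) * w := by
    have h9 : (e : ℂ) * ((√(((D : ℤ)).natAbs : ℝ) : ℝ) : ℂ) * G₀ 1 =
        (Op / 3 : ℂ) * (2 ^ e₂ * o) := by
      rw [← hge]
      rw [hgG]
      push_cast
      ring
    apply mul_right_cancel₀ hsd0
    linear_combination (e : ℂ) * h9 - G₀ 1 * ((√(((D : ℤ)).natAbs : ℝ) : ℝ) : ℂ) * hee -
      (e * (2 ^ e₂ * (o : ℂ) / 6)) * hwd
  have hfact : Fact (Nat.Prime 2) := ⟨Nat.prime_two⟩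
  have hval2 : padicValNat 2 T₀ = 1 + e₂ := hTv'
  have he0 : e ≠ 0 := by rcases he with rfl | rfl <;> norm_num
  have htQ : (t₀ : ℚ) ≠ 0 := by exact_mod_cast ht0'
  have hTQ : (T₀ : ℚ) ≠ 0 := by exact_mod_cast hT0'
  have h22 : padicValRat 2 (2 : ℚ) = 1 := by
    have := padicValRat.self (p := 2) (by norm_num)
    exact_mod_cast this
  have h6 : padicValRat 2 (6 : ℚ) = 1 := by
    rw [show (6 : ℚ) = 2 * (3 : ℕ) by norm_num, padicValRat.mul two_ne_zero (by norm_num),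
      h22, padicValRat.of_nat, val_odd (by decide)]
    norm_num
  have hune : (2 : ℚ) ^ e₂ * (t₀ : ℚ) ^ 2 / (6 * T₀) ≠ 0 :=
    div_ne_zero (mul_ne_zero (pow_ne_zero _ two_ne_zero) (pow_ne_zero _ htQ))
      (mul_ne_zero (by norm_num) hTQ)
  have hmain : padicValRat 2 ((2 : ℚ) ^ e₂ * (t₀ : ℚ) ^ 2 / (6 * T₀)) = 0 := by
    rw [padicValRat.div (mul_ne_zero (pow_ne_zero _ two_ne_zero)
      (pow_ne_zero _ htQ)) (mul_ne_zero (by norm_num) hTQ),
      padicValRat.mul (pow_ne_zero _ two_ne_zero) (pow_ne_zero _ htQ), padicValRat.pow,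
      padicValRat.pow, padicValRat.mul (by norm_num) hTQ, h22, h6, padicValRat.of_nat,
      padicValRat.of_nat, hval2, htv']
    push_cast
    ring
  have hu : padicValRat 2 (e * ((2 : ℚ) ^ e₂ * (t₀ : ℚ) ^ 2 / (6 * T₀))) = 0 := by
    rcases he with rfl | rfl
    · rw [one_mul]; exact hmain
    · rw [neg_one_mul, padicValRat.neg]; exact hmain
  obtain ⟨k1, k2⟩ := odd_mul (mul_ne_zero he0 hune) hu o
  refine ⟨(o : ℚ) * (e * ((2 : ℚ) ^ e₂ * (t₀ : ℚ) ^ 2 / (6 * T₀))), ⟨G₀, hG₀, hE0,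
    by rw [hOQ]; exact hw0, Nat.pos_of_ne_zero hT0', Nat.pos_of_ne_zero ht0', ?_⟩, k1, k2.trans ho⟩
  rw [hGv, hOQ]
  rw [← hT₀, ← ht₀]
  push_cast
  have c5 : (T₀ : ℂ) ≠ 0 := by exact_mod_cast hT0'
  field_simp

end Pool.Agent.U115.XP
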