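import Pool.Agent.U115.XP.AnQ
import Pool.Agent.U115.XP.Fin
import Pool.Agent.U115.TP.Core
import Pool.Agent.U115.TP.N8

/-!
# The parity of the sum of the symbols and the kernel, for at most two split primes
-/

set_option autoImplicit false
set_option linter.style.haveILetI false

open Finset

namespace Pool.Agent.U115.XP

open scoped Classical

open Pool.Agent.W97.MT (E14 ap)
open Pool.Agent.Y687
open Pool.Agent.U115.TP (inert_two split_pr n8_iff sq_comm nn_iff jac_one jac_pm)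

/-- `x` is `2 ^ n` times an integer, which is odd if and only if `G` holds -/
def VP (G : Prop) (n : ℕ) (x : ℤ) : Prop := ∃ o : ℤ, x = 2 ^ n * o ∧ (Odd o ↔ G)

/-- `8` does not divide the number of points -/
theorem nn_rt {p : ℕ} {S : Finset ℕ} (hp : Split p) (hS : ∀ q ∈ S, Inert q) :
    ¬ 8 ∣ NN (∏ q ∈ S, q) p ↔ Rt p (∏ q ∈ S, q) := by
  haveI : Fact p.Prime := ⟨hp.1⟩
  have h0 : ((∏ q ∈ S, q : ℕ) : ZMod p) ≠ 0 := by
    rw [Ne, ZMod.natCast_eq_zero_iff]
    exact split_not_dvd hp hS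
  rw [n8_iff hp hS, rt_mul hp.2.1 (split_pr hp).2.2.2 h0]

/-- the parity of the quotient -/
theorem odd_split {p : ℕ} {S : Finset ℕ} (hp : Split p) (hS : ∀ q ∈ S, Inert q) {x : ℤ}
    (hx : ap E14 p - 2 * jacobiSym p (∏ q ∈ S, q) = 4 * x) :
    Odd x ↔ Rt p (∏ q ∈ S, q) := by
  obtain ⟨-, k, hk⟩ := SS_facts p hp.1 hp.2.1 hp.2.2
  have hpp := hp.1
  have p8 := hp.2.1
  have hm4 := prod_mod_four hS
  have hpm := split_not_dvd hp hS
  have hrec : jacobiSym p (∏ q ∈ S, q) = jacobiSym ((∏ q ∈ S, q : ℕ) : ℤ) p :=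
    jacobiSym.quadratic_reciprocity_one_mod_four (by omega) (Nat.odd_iff.2 (by omega))
  rw [← nn_rt hp hS, nn_iff hp hS hk, ← jac_one hpp hpm]
  rw [hrec] at hx
  rcases jac_pm hpp hpm with hj | hj
  · rw [hj] at hx ⊢
    have : x = k := by omega
    rw [this]
    simp
  · rw [hj] at hx ⊢
    have : x = k + 1 := by omega
    rw [this]
    constructor
    · intro h1
      refine ⟨fun h2 => ?_, fun h2 => by norm_num at h2⟩
      rw [Int.odd_iff] at h1 h2
      omega
    · intro h1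
      have h2 : ¬ Odd k := fun h => by
        have := h1.1 h
        norm_num at this
      rw [Int.not_odd_iff_even, Int.even_iff] at h2
      rw [Int.odd_iff]
      omega

/-- no split prime -/
theorem VP_zero {s : ℚ → ℤ} (hs : Symb s (fun q => ap E14 q)) {S : Finset ℕ}
    (hS : ∀ q ∈ S, Inert q) : VP True S.card (SS s (∏ q ∈ S, q) (∏ q ∈ S, q)) := by
  obtain ⟨k, hk⟩ := L_inert hs S fun q hq => II_facts q (hS q hq).1 (hS q hq).2.1 (hS q hq).2.2
  exact ⟨2 * k + 1, hk, iff_of_true ⟨k, rfl⟩ trivial⟩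

/-- one split prime -/
theorem VP_one {s : ℚ → ℤ} (hs : Symb s (fun q => ap E14 q)) {p : ℕ} {S : Finset ℕ} (hp : Split p)
    (hS : ∀ q ∈ S, Inert q) :
    VP (Rt p (∏ q ∈ S, q)) (S.card + 2) (SS s (p * ∏ q ∈ S, q) (p * ∏ q ∈ S, q)) := by
  obtain ⟨k1, k2, k3, k4⟩ := split_sp hp
  have hII : ∀ q ∈ S, isII (fun q => ap E14 q) q := fun q hq =>
    II_facts q (hS q hq).1 (hS q hq).2.1 (hS q hq).2.2
  have h := sum_split hs p k1 k2 k3 k4 S hII (split_notMem hp hS)
  obtain ⟨x, hx⟩ := (split_sp hp).xx (T := S) (fun q hq => (hS q hq).1) (split_notMem hp hS)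
  have hx' : ap E14 p - 2 * jacobiSym p (∏ q ∈ S, q) = 4 * x := hx
  have h' : (2 : ℤ) ^ (S.card + 3) ∣ SS s (p * ∏ q ∈ S, q) (p * ∏ q ∈ S, q)
      - 2 ^ S.card * (4 * x) := by
    rw [← hx']
    exact h
  obtain ⟨z, hz⟩ := h'
  have hodd := odd_split hp hS hx'
  refine ⟨x + 2 * z, ?_, ?_⟩
  · rw [pow_add] at hz ⊢
    linear_combination hz
  · rw [← hodd]
    constructor
    · intro h1
      rw [Int.odd_iff] at h1 ⊢
      omega
    · intro h1
      rw [Int.odd_iff] at h1 ⊢
      omega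

/-- two split primes -/
theorem VP_two {s : ℚ → ℤ} (hs : Symb2 s (fun q => ap E14 q)) {p1 p2 : ℕ} {S : Finset ℕ}
    (hne : p1 ≠ p2) (h1 : Split p1) (h2 : Split p2) (hS : ∀ q ∈ S, Inert q) :
    VP ((IsSquare (p1 : ZMod p2) → Rt p1 (∏ q ∈ S, q) ∧ Rt p2 (∏ q ∈ S, q)) ∧
      (Rt p1 (∏ q ∈ S, q) ∨ Rt p2 (∏ q ∈ S, q)))
      (S.card + 4) (SS s (p1 * p2 * ∏ q ∈ S, q) (p1 * p2 * ∏ q ∈ S, q)) := by
  classical
  have hcop12 : Nat.Coprime p1 p2 := (Nat.coprime_primes h1.1 h2.1).2 hne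
  haveI : Fact p1.Prime := ⟨h1.1⟩
  haveI : Fact p2.Prime := ⟨h2.1⟩
  have hj : jacobiSym p1 p2 = 1 ∨ jacobiSym p1 p2 = -1 := by
    refine jacobiSym.eq_one_or_neg_one ?_
    rw [Int.gcd_natCast_natCast]
    exact hcop12
  have hp10 : ((p1 : ℤ) : ZMod p2) ≠ 0 := by
    rw [Ne, ZMod.intCast_zmod_eq_zero_iff_dvd, Int.natCast_dvd_natCast]
    intro h
    exact hne ((Nat.prime_dvd_prime_iff_eq h2.1 h1.1).1 h).symm
  have hj1 : jacobiSym p1 p2 = 1 ↔ IsSquare (p1 : ZMod p2) := by
    rw [← jacobiSym.legendreSym.to_jacobiSym, legendreSym.eq_one_iff _ hp10]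
    push_cast
    exact Iff.rfl
  have hII : ∀ q ∈ S, isII (fun q => ap E14 q) q := fun q hq =>
    II_facts q (hS q hq).1 (hS q hq).2.1 (hS q hq).2.2
  have hprime : ∀ T ⊆ S, ∀ q ∈ T, q.Prime := fun T hT q hq => (hS q (hT hq)).1
  have hp1S := split_notMem h1 hS
  have hp2S := split_notMem h2 hS
  have g1 := split_sp h1
  have g2 := split_sp h2
  obtain ⟨x1, hx1⟩ : ∃ x1 : Finset ℕ → ℤ, ∀ T ⊆ S,
      ap E14 p1 - 2 * jacobiSym p1 (∏ q ∈ T, q) = 4 * x1 T := by
    refine ⟨fun T => (ap E14 p1 - 2 * jacobiSym p1 (∏ q ∈ T, q)) / 4, fun T hT => ?_⟩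
    obtain ⟨x, hx⟩ := g1.xx (hprime T hT) (fun h => hp1S (hT h))
    have hx' : ap E14 p1 - 2 * jacobiSym p1 (∏ q ∈ T, q) = 4 * x := hx
    show _ = 4 * ((ap E14 p1 - 2 * jacobiSym p1 (∏ q ∈ T, q)) / 4)
    rw [hx']
    omega
  obtain ⟨x2, hx2⟩ : ∃ x2 : Finset ℕ → ℤ, ∀ T ⊆ S,
      ap E14 p2 - 2 * jacobiSym p2 (∏ q ∈ T, q) = 4 * x2 T := by
    refine ⟨fun T => (ap E14 p2 - 2 * jacobiSym p2 (∏ q ∈ T, q)) / 4, fun T hT => ?_⟩
    obtain ⟨x, hx⟩ := g2.xx (hprime T hT) (fun h => hp2S (hT h))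
    have hx' : ap E14 p2 - 2 * jacobiSym p2 (∏ q ∈ T, q) = 4 * x := hx
    show _ = 4 * ((ap E14 p2 - 2 * jacobiSym p2 (∏ q ∈ T, q)) / 4)
    rw [hx']
    omega
  have h12 : p1 ∉ insert p2 S := by
    rw [Finset.mem_insert, not_or]
    exact ⟨hne, hp1S⟩
  have key : ∀ ε : ℤ, ((jacobiSym p1 p2 = 1 ∧ ε = 0) ∨ (jacobiSym p1 p2 = -1 ∧ ε = 1)) →
      ∃ k : ℤ, SS s (p1 * p2 * ∏ q ∈ S, q) (p1 * p2 * ∏ q ∈ S, q) =
        2 ^ (S.card + 4) * (x1 S * x2 S + ε * (x1 S + x2 S) + 2 * k) := by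
    intro ε hε
    obtain ⟨k, hk⟩ := sum_split2 hs g1 g2 hne hε x1 x2 S hII hp1S hp2S
      (fun T hT => hx1 T hT) (fun T hT => hx2 T hT)
    rw [Finset.prod_insert h12, Finset.prod_insert hp2S] at hk
    refine ⟨k, ?_⟩
    rw [mul_assoc p1 p2]
    exact hk
  have odd1 : Odd (x1 S) ↔ Rt p1 (∏ q ∈ S, q) := odd_split h1 hS (hx1 S (Finset.Subset.refl _))
  have odd2 : Odd (x2 S) ↔ Rt p2 (∏ q ∈ S, q) := odd_split h2 hS (hx2 S (Finset.Subset.refl _))
  have par : ∀ a b k : ℤ, Odd (a + 2 * k) ↔ Odd a := by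
    intro a _ k
    constructor
    · intro h
      rw [Int.odd_iff] at h ⊢
      omega
    · intro h
      rw [Int.odd_iff] at h ⊢
      omega
  rw [← odd1, ← odd2, ← hj1]
  rcases hj with hj' | hj'
  · obtain ⟨k, hk⟩ := key 0 (Or.inl ⟨hj', rfl⟩)
    refine ⟨_, hk, ?_⟩
    rw [par _ 0, zero_mul, add_zero, Int.odd_mul]
    constructor
    · rintro ⟨a, b⟩
      exact ⟨fun _ => ⟨a, b⟩, Or.inl a⟩
    · rintro ⟨a, -⟩
      exact a hj'
  · obtain ⟨k, hk⟩ := key 1 (Or.inr ⟨hj', rfl⟩)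
    refine ⟨_, hk, ?_⟩
    rw [par _ 0, hj']
    have e : x1 S * x2 S + 1 * (x1 S + x2 S) = (x1 S + 1) * (x2 S + 1) - 1 := by ring
    rw [e]
    have hn : ¬ ((-1 : ℤ) = 1) := by norm_num
    constructor
    · intro h
      refine ⟨fun h' => absurd h' hn, ?_⟩
      by_contra hc
      rw [not_or, Int.not_odd_iff_even, Int.not_odd_iff_even] at hc
      obtain ⟨⟨a, ha⟩, ⟨b, hb⟩⟩ := hc
      rw [ha, hb] at h
      obtain ⟨c, hc⟩ := h
      have : (2 * (2 * a * b + a + b) : ℤ) = 2 * c + 1 := by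
        rw [← hc]; ring
      omega
    · rintro ⟨-, ⟨a, ha⟩ | ⟨a, ha⟩⟩
      · rw [ha]
        exact ⟨(a + 1) * (x2 S + 1) - 1, by ring⟩
      · rw [ha]
        exact ⟨(a + 1) * (x1 S + 1) - 1, by ring⟩

variable {m : ℕ} {P : Finset ℕ}

/-- the empty set is in the kernel -/
theorem ker_empty (m : ℕ) (P : Finset ℕ) : Ker m P ∅ := by
  refine ⟨fun p _ => ?_, fun p hp => absurd hp (Finset.notMem_empty p)⟩
  rw [Finset.prod_empty]
  exact ⟨1, by norm_num⟩

/-- the kernel is trivial -/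
theorem kap_one_iff (m : ℕ) (P : Finset ℕ) :
    kap m P = 1 ↔ ∀ J ⊆ P, J.Nonempty → ¬ Ker m P J := by
  unfold kap
  rw [Finset.card_eq_one]
  constructor
  · rintro ⟨J0, h0⟩ J hJ hJn hK
    have h1 : J ∈ ({J0} : Finset (Finset ℕ)) := by
      rw [← h0]
      exact Finset.mem_filter.2 ⟨Finset.mem_powerset.2 hJ, hK⟩
    have h2 : (∅ : Finset ℕ) ∈ ({J0} : Finset (Finset ℕ)) := by
      rw [← h0]
      exact Finset.mem_filter.2 ⟨Finset.mem_powerset.2 (Finset.empty_subset _), ker_empty m P⟩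
    rw [Finset.mem_singleton] at h1 h2
    rw [h1, ← h2] at hJn
    exact Finset.not_nonempty_empty hJn
  · intro h
    refine ⟨∅, ?_⟩
    ext J
    rw [Finset.mem_filter, Finset.mem_powerset, Finset.mem_singleton]
    constructor
    · rintro ⟨h1, h2⟩
      by_contra hne
      exact h J h1 (Finset.nonempty_iff_ne_empty.2 hne) h2
    · rintro rfl
      exact ⟨Finset.empty_subset _, ker_empty m P⟩

theorem kap_zero' (m : ℕ) : kap m ∅ = 1 := by
  rw [kap_one_iff]
  intro J hJ hJn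
  rw [Finset.subset_empty.1 hJ] at hJn
  exact absurd hJn Finset.not_nonempty_empty

theorem kap_sing (m p : ℕ) : kap m {p} = 1 ↔ Rt p m := by
  rw [kap_one_iff]
  have hK : Ker m {p} {p} ↔ ¬ Rt p m := by
    unfold Ker
    rw [Finset.sdiff_self, Finset.prod_empty]
    constructor
    · rintro ⟨-, h2⟩ hR
      exact h2 p (mem_singleton_self p) (iff_of_true ⟨1, by norm_num⟩ hR)
    · intro hR
      refine ⟨fun q hq => absurd hq (Finset.notMem_empty q), fun q hq => ?_⟩
      rw [mem_singleton] at hq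
      subst hq
      intro h
      exact hR (h.1 ⟨1, by norm_num⟩)
  constructor
  · intro h
    have h1 := h {p} (Finset.Subset.refl _) (Finset.singleton_nonempty p)
    rw [hK] at h1
    exact not_not.1 h1
  · intro h J hJ hJn
    have hJe : J = {p} := (Finset.Nonempty.subset_singleton_iff hJn).1 hJ
    subst hJe
    rw [hK]
    exact not_not.2 h

theorem kap_pair {p1 p2 : ℕ} (hne : p1 ≠ p2) (h1 : Split p1) (h2 : Split p2) (m : ℕ) :
    kap m {p1, p2} = 1 ↔ ((IsSquare (p1 : ZMod p2) → Rt p1 m ∧ Rt p2 m) ∧ (Rt p1 m ∨ Rt p2 m)) := by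
  rw [kap_one_iff]
  have d0 : ({p1, p2} : Finset ℕ) \ {p1, p2} = ∅ := Finset.sdiff_self _
  have d1 : ({p1, p2} : Finset ℕ) \ {p1} = {p2} := by
    ext x
    simp only [mem_sdiff, mem_insert, mem_singleton]
    constructor
    · rintro ⟨h | h, h'⟩
      · exact absurd h h'
      · exact h
    · rintro rfl
      exact ⟨Or.inr rfl, fun h => hne h.symm⟩
  have d2 : ({p1, p2} : Finset ℕ) \ {p2} = {p1} := by
    ext x
    simp only [mem_sdiff, mem_insert, mem_singleton]
    constructor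
    · rintro ⟨h | h, h'⟩
      · exact h
      · exact absurd h h'
    · rintro rfl
      exact ⟨Or.inl rfl, fun h => hne h⟩
  have K12 : Ker m {p1, p2} {p1, p2} ↔ (¬ Rt p1 m ∧ ¬ Rt p2 m) := by
    unfold Ker
    rw [d0, Finset.prod_empty]
    constructor
    · rintro ⟨-, h3⟩
      refine ⟨fun hR => ?_, fun hR => ?_⟩
      · exact h3 p1 (mem_insert_self _ _) (iff_of_true ⟨1, by norm_num⟩ hR)
      · exact h3 p2 (mem_insert_of_mem (mem_singleton_self _)) (iff_of_true ⟨1, by norm_num⟩ hR)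
    · rintro ⟨a, b⟩
      refine ⟨fun q hq => absurd hq (Finset.notMem_empty q), fun q hq => ?_⟩
      rw [mem_insert, mem_singleton] at hq
      rcases hq with rfl | rfl
      · intro h
        exact a (h.1 ⟨1, by norm_num⟩)
      · intro h
        exact b (h.1 ⟨1, by norm_num⟩)
  have K1 : Ker m {p1, p2} {p1} ↔ (IsSquare (p1 : ZMod p2) ∧ ¬ Rt p1 m) := by
    unfold Ker
    rw [d1, Finset.prod_singleton, Finset.prod_singleton]
    constructor
    · rintro ⟨a, b⟩
      have a' := a p2 (mem_singleton_self _)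
      refine ⟨a', fun hR => ?_⟩
      exact b p1 (mem_singleton_self _) (iff_of_true ((sq_comm h1 h2).1 a') hR)
    · rintro ⟨a, b⟩
      refine ⟨fun q hq => ?_, fun q hq => ?_⟩
      · rw [mem_singleton] at hq
        subst hq
        exact a
      · rw [mem_singleton] at hq
        subst hq
        intro h
        exact b (h.1 ((sq_comm h1 h2).1 a))
  have K2 : Ker m {p1, p2} {p2} ↔ (IsSquare (p1 : ZMod p2) ∧ ¬ Rt p2 m) := by
    unfold Ker
    rw [d2, Finset.prod_singleton, Finset.prod_singleton]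
    constructor
    · rintro ⟨a, b⟩
      have a' := a p1 (mem_singleton_self _)
      refine ⟨(sq_comm h1 h2).2 a', fun hR => ?_⟩
      exact b p2 (mem_singleton_self _) (iff_of_true ((sq_comm h1 h2).2 a') hR)
    · rintro ⟨a, b⟩
      refine ⟨fun q hq => ?_, fun q hq => ?_⟩
      · rw [mem_singleton] at hq
        subst hq
        exact (sq_comm h1 h2).1 a
      · rw [mem_singleton] at hq
        subst hq
        intro h
        exact b (h.1 a)
  have s1 : ({p1} : Finset ℕ) ⊆ {p1, p2} := by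
    intro x hx
    rw [mem_singleton] at hx
    rw [hx]
    exact mem_insert_self _ _
  have s2 : ({p2} : Finset ℕ) ⊆ {p1, p2} := by
    intro x hx
    rw [mem_singleton] at hx
    rw [hx]
    exact mem_insert_of_mem (mem_singleton_self _)
  constructor
  · intro h
    have a1 := h {p1} s1 (Finset.singleton_nonempty p1)
    have a2 := h {p2} s2 (Finset.singleton_nonempty p2)
    have a3 := h {p1, p2} (Finset.Subset.refl _) (Finset.insert_nonempty p1 {p2})
    rw [K1] at a1
    rw [K2] at a2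
    rw [K12] at a3
    refine ⟨fun he => ⟨?_, ?_⟩, ?_⟩
    · by_contra hR
      exact a1 ⟨he, hR⟩
    · by_contra hR
      exact a2 ⟨he, hR⟩
    · by_contra hR
      exact a3 (not_or.1 hR)
  · rintro ⟨h3, h4⟩ J hJ hJn hK
    by_cases k1 : p1 ∈ J
    · by_cases k2 : p2 ∈ J
      · have hJe : J = {p1, p2} := by
          refine Finset.Subset.antisymm hJ ?_
          intro x hx
          rw [mem_insert, mem_singleton] at hx
          rcases hx with rfl | rfl
          · exact k1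
          · exact k2
        rw [hJe, K12] at hK
        rcases h4 with h4 | h4
        · exact hK.1 h4
        · exact hK.2 h4
      · have hJe : J = {p1} := by
          ext x
          rw [mem_singleton]
          constructor
          · intro hx
            have := hJ hx
            rw [mem_insert, mem_singleton] at this
            rcases this with h | h
            · exact h
            · subst h; exact absurd hx k2
          · rintro rfl
            exact k1
        rw [hJe, K1] at hK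
        exact hK.2 (h3 hK.1).1
    · have k2 : p2 ∈ J := by
        obtain ⟨x, hx⟩ := hJn
        have := hJ hx
        rw [mem_insert, mem_singleton] at this
        rcases this with h | h
        · subst h; exact absurd hx k1
        · subst h; exact hx
      have hJe : J = {p2} := by
        ext x
        rw [mem_singleton]
        constructor
        · intro hx
          have := hJ hx
          rw [mem_insert, mem_singleton] at this
          rcases this with h | h
          · subst h; exact absurd hx k1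
          · exact h
        · rintro rfl
          exact k2
      rw [hJe, K2] at hK
      exact hK.2 (h3 hK.1).2

end Pool.Agent.U115.XP
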