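import Pool.Agent.U115.XP.AnK
import Pool.Agent.U115.XP.VP
import Pool.Agent.U115.TP.Ov

/-!
# The formula modulo two over `ℚ` and over the fields of odd degree
-/

set_option autoImplicit false
set_option linter.style.haveILetI false

open Finset NumberField IsDedekindDomain

namespace Pool.Agent.U115.XP

open scoped Classical

open Pool.Agent.TH841.NF.D (Sha rk)
open Pool.Agent.Y700 (WM)
open Pool.Agent.Y682 (NCl wc)
open Pool.Agent.Y682.XF (base Sha2 rank tors)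
open Pool.Agent.W97.MT (E14 ap)
open Pool.Agent.Y687 (Split Inert split_notMem prod_mod_four squarefree_prod SS Rt)
open Pool.Agent.U115.TP (inert_two split_pr exists_cyc3 inert9)

theorem hb_of {P S : Finset ℕ} (hP : ∀ p ∈ P, Split p) (hS : ∀ q ∈ S, Inert q) :
    HB (∏ q ∈ S, q) P := by
  have hdis : Disjoint P S := by
    rw [Finset.disjoint_left]
    intro p hp hp'
    exact split_notMem (hP p hp) hS hp'
  refine ⟨prod_mod_four hS, fun q hq => split_pr (hP q hq), ?_, inert_two hS⟩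
  rw [Int.squarefree_natCast, ← Finset.prod_union hdis]
  refine squarefree_prod fun q hq => ?_
  rcases Finset.mem_union.1 hq with h | h
  · exact (hP q h).1
  · exact (hS q h).1

/-- the data -/
structure Dat (D : ℕ) (P S : Finset ℕ) : Prop where
  hP : ∀ p ∈ P, Split p
  hS : ∀ q ∈ S, Inert q
  e : D = (∏ p ∈ P, p) * ∏ q ∈ S, q
  one : 1 < D
  card : P.card ≤ 2

section

variable {D : ℕ} {P S : Finset ℕ}

theorem Dat.hb (h : Dat D P S) : HB (∏ q ∈ S, q) P := hb_of h.hP h.hS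

theorem Dat.ne (h : Dat D P S) : D ≠ 0 := by
  have := h.one
  omega

theorem Dat.pf (h : Dat D P S) : D.primeFactors = P ∪ S := by
  have hPp : ∀ p ∈ P, p.Prime := fun p hp => (h.hP p hp).1
  have hSp : ∀ q ∈ S, q.Prime := fun q hq => (h.hS q hq).1
  have hP0 : (∏ p ∈ P, p) ≠ 0 := Finset.prod_ne_zero_iff.2 fun p hp => (hPp p hp).ne_zero
  have hS0 : (∏ q ∈ S, q) ≠ 0 := Finset.prod_ne_zero_iff.2 fun p hp => (hSp p hp).ne_zero
  rw [h.e, Nat.primeFactors_mul hP0 hS0, Nat.primeFactors_prod hPp, Nat.primeFactors_prod hSp]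

theorem Dat.mem (h : Dat D P S) {l : ℕ} (hl : l.Prime) (hlD : l ∣ D) : Split l ∨ Inert l := by
  have h1 : l ∈ D.primeFactors := Nat.mem_primeFactors.2 ⟨hl, hlD, h.ne⟩
  rw [h.pf, Finset.mem_union] at h1
  rcases h1 with h2 | h2
  · exact Or.inl (h.hP l h2)
  · exact Or.inr (h.hS l h2)

theorem Dat.sum (h : Dat D P S) :
    ∑ p ∈ D.primeFactors, (if IsSquare (-7 : ZMod p) then 2 else 1) = S.card + 2 * P.card := by
  have hdis : Disjoint P S := by
    rw [Finset.disjoint_left]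
    intro p hp hp'
    exact split_notMem (h.hP p hp) h.hS hp'
  have hSp : ∀ q ∈ S, q.Prime := fun q hq => (h.hS q hq).1
  rw [h.pf, Finset.sum_union hdis]
  have e1 : ∑ p ∈ P, (if IsSquare (-7 : ZMod p) then 2 else 1) = 2 * P.card := by
    rw [Finset.sum_congr rfl fun p hp => if_pos (split_pr (h.hP p hp)).2.2.2, Finset.sum_const,
      smul_eq_mul, mul_comm]
  have e2 : ∑ p ∈ S, (if IsSquare (-7 : ZMod p) then 2 else 1) = S.card := by
    rw [Finset.sum_congr rfl fun p hp => if_neg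
      (inert_two h.hS p (hSp p hp) (Finset.dvd_prod_of_mem _ hp)).2.2.1, Finset.sum_const,
      smul_eq_mul, mul_one]
  rw [e1, e2, add_comm]

theorem Dat.mod (h : Dat D P S) : D % 4 = 1 := by
  have hPm : (∏ p ∈ P, p) % 4 = 1 := by
    refine Finset.prod_induction _ (fun n => n % 4 = 1) ?_ (by norm_num) ?_
    · intro a b ha hb
      rw [Nat.mul_mod, ha, hb]
    · intro p hp
      have := (h.hP p hp).2.1
      omega
  rw [h.e, Nat.mul_mod, hPm, prod_mod_four h.hS]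

theorem Dat.sq (h : Dat D P S) : Squarefree (D : ℤ) := by
  have := h.hb.sqf
  rw [h.e]
  exact this

theorem Dat.n3 (h : Dat D P S) {l : ℕ} (hl : l.Prime) (hlD : l ∣ D) : l ≠ 2 ∧ l ≠ 3 ∧ l ≠ 7 := by
  rcases h.mem hl hlD with h1 | h1
  · have := h1.2.1
    omega
  · have := h1.2.1
    omega

theorem Dat.n14 (h : Dat D P S) {l : ℕ} (hl : l.Prime) (hlD : l ∣ D) : ¬ l ∣ 14 := by
  intro h14
  have h2 : l = 2 ∨ l = 7 := by
    have h1 : l ∣ 2 * 7 := by norm_num; exact h14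
    rcases hl.dvd_mul.1 h1 with h3 | h3
    · exact Or.inl ((Nat.prime_dvd_prime_iff_eq hl Nat.prime_two).1 h3)
    · exact Or.inr ((Nat.prime_dvd_prime_iff_eq hl (by norm_num)).1 h3)
  have h3 := h.n3 hl hlD
  omega

theorem Dat.cop42 (h : Dat D P S) : D.Coprime 42 := by
  refine Nat.coprime_of_dvd fun l hl h1 h42 => ?_
  have h3 := h.n3 hl h1
  have h2 : l ∣ 2 * 3 * 7 := by norm_num; exact h42
  rcases hl.dvd_mul.1 h2 with h4 | h4
  · rcases hl.dvd_mul.1 h4 with h5 | h5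
    · exact h3.1 ((Nat.prime_dvd_prime_iff_eq hl Nat.prime_two).1 h5)
    · exact h3.2.1 ((Nat.prime_dvd_prime_iff_eq hl Nat.prime_three).1 h5)
  · exact h3.2.2 ((Nat.prime_dvd_prime_iff_eq hl (by norm_num)).1 h4)

/-- the value of the sum of the symbols -/
theorem Dat.val (h : Dat D P S) {s : ℚ → ℤ} (hs : Pool.Agent.Y687.Symb2 s (fun q => ap E14 q)) :
    ∃ o : ℤ, SS s D D = 2 ^ (∑ p ∈ D.primeFactors, (if IsSquare (-7 : ZMod p) then 2 else 1)) * o ∧
      (Odd o ↔ kap (∏ q ∈ S, q) P = 1) := by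
  rw [h.sum]
  have hc := h.card
  have hcases : P.card = 0 ∨ P.card = 1 ∨ P.card = 2 := by omega
  rcases hcases with h0 | h0 | h0
  · have hPe : P = ∅ := Finset.card_eq_zero.1 h0
    have he := h.e
    rw [hPe, Finset.prod_empty, one_mul] at he
    obtain ⟨o, ho, ho'⟩ := VP_zero hs.toSymb h.hS
    rw [← he] at ho
    rw [h0, hPe]
    refine ⟨o, ho, ho'.trans ?_⟩
    exact iff_of_true trivial (kap_zero' _)
  · obtain ⟨p, hp⟩ := Finset.card_eq_one.1 h0
    have he := h.e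
    rw [hp, Finset.prod_singleton] at he
    obtain ⟨o, ho, ho'⟩ := VP_one hs.toSymb (h.hP p (by rw [hp]; exact mem_singleton_self p)) h.hS
    rw [← he] at ho
    rw [h0, hp]
    exact ⟨o, ho, ho'.trans (kap_sing _ _).symm⟩
  · obtain ⟨p1, p2, hne, hp⟩ := Finset.card_eq_two.1 h0
    have h1 : Split p1 := h.hP p1 (by rw [hp]; exact mem_insert_self _ _)
    have h2 : Split p2 := h.hP p2 (by rw [hp]; exact mem_insert_of_mem (mem_singleton_self _))
    have he := h.e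
    rw [hp, Finset.prod_pair hne] at he
    obtain ⟨o, ho, ho'⟩ := VP_two hs hne h1 h2 h.hS
    rw [← he] at ho
    rw [h0, hp]
    exact ⟨o, ho, ho'.trans (kap_pair hne h1 h2 _).symm⟩

/-- the conclusion -/
def Cl2 (K : Type) [Field K] [NumberField K] (W : WeierstrassCurve ℤ) (G : Prop) : Prop :=
  (∀ v : HeightOneSpectrum (𝓞 K), Pool.Agent.Y682.XF.MinimalAt W v) ∧
    {v : HeightOneSpectrum (𝓞 K) | Pool.Agent.Y682.XF.c W v ≠ 1}.Finite ∧
    (∃ z : ℚ, IsZK K W z ∧ Odd z.den ∧ (Odd z.num ↔ G)) ∧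
    ((Finite (base W K).toAffine.Point ∧ Nat.card (Sha2 K W) = 1) ↔ G)

/-- rank zero and finitely many points -/
theorem fin_K (H : Pool.Agent.Y682.XF.Parts) {D : ℤ} (hD4 : D % 4 = 1) (K : Type) [Field K]
    [NumberField K] (hodd : Odd (Module.finrank ℚ K)) :
    rank K (WM D) = 0 ↔ Finite (base (WM D) K).toAffine.Point := by
  have hΔ : (WM D).Δ ≠ 0 := by
    intro h0
    apply Pool.Agent.Y682.XF.wm_disc_ne ℚ hD4
    rw [WeierstrassCurve.map_Δ, h0, map_zero]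
  obtain ⟨h, -, -, -, -, g, hg⟩ := H.ch K (WM D) hΔ
  obtain ⟨htf, -⟩ := H.tord D hD4 K hodd
  constructor
  · intro hr
    have he : IsEmpty (Fin (rank K (WM D))) := by rw [hr]; exact Fin.isEmpty
    have h1 : ∀ P : (base (WM D) K).toAffine.Point, P ∈ tors K (WM D) := by
      intro P
      obtain ⟨n, hn, -⟩ := hg P
      simp only [Finset.univ_eq_empty, Finset.sum_empty, sub_zero] at hn
      exact hn
    have h2 : (Set.univ : Set (base (WM D) K).toAffine.Point).Finite :=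
      htf.subset fun P _ => h1 P
    exact Set.finite_univ_iff.1 h2
  · intro hf
    unfold Pool.Agent.Y682.XF.rank
    refine Module.finrank_eq_zero_iff_isTorsion.2 ?_
    intro x
    refine ⟨⟨(Nat.card (base (WM D) K).toAffine.Point : ℤ), ?_⟩, ?_⟩
    · rw [mem_nonZeroDivisors_iff_ne_zero]
      exact_mod_cast Nat.card_pos.ne'
    · show (Nat.card (base (WM D) K).toAffine.Point : ℤ) • x = 0
      rw [natCast_zsmul]
      exact card_nsmul_eq_zero'

/-- the 2-primary part is trivial -/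
theorem sha2_iff {K : Type} [Field K] [NumberField K] {W : WeierstrassCurve ℤ} :
    Nat.card (Sha2 K W) = 1 ↔ ∀ (n : ℕ) (x : Sha (base W K)), 2 ^ n • x = 0 → x = 0 := by
  constructor
  · intro h n x hx
    have h1 := (Nat.card_eq_one_iff_unique.1 h).1
    have h2 : x ∈ AddCommGroup.primaryComponent (Sha (base W K)) 2 := by
      exact ⟨n, hx⟩
    have h3 := h1.elim ⟨x, h2⟩ ⟨0, AddSubgroup.zero_mem _⟩
    exact congrArg Subtype.val h3
  · intro h
    exact Pool.Agent.Y682.XF.sha2_card fun y hy => h 1 y (by rw [pow_one]; exact hy)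

theorem fin_eqv {K : Type} [Field K] (W W' : WeierstrassCurve K)
    (e : W.toAffine.Point ≃+ W'.toAffine.Point) :
    Finite W.toAffine.Point ↔ Finite W'.toAffine.Point := e.toEquiv.finite_iff

/-- over `ℚ` -/
theorem Dat.arQ (h : Dat D P S) :
    (Finite (base (WM (D : ℤ)) ℚ).toAffine.Point ∧ Nat.card (Sha2 ℚ (WM (D : ℤ))) = 1) ↔
      kap (∏ q ∈ S, q) P = 1 := by
  rw [sha2_iff, ← h.hb.iff h.e]
  have hDmod := h.mod
  obtain ⟨k, hk⟩ : ∃ k : ℤ, (D : ℤ) = 4 * k + 1 := ⟨((D / 4 : ℕ) : ℤ), by omega⟩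
  have hkq : (D : ℚ) = 4 * (k : ℚ) + 1 := by exact_mod_cast hk
  rw [hkq, Pool.Agent.Y31.XF.wm_eq hk]
  obtain ⟨⟨e1⟩, ⟨e2⟩⟩ := Pool.Agent.Y655.XT.s_shavc ℚ _ _ (Pool.Agent.Y31.XF.CV k)
    (Pool.Agent.Y31.XF.disc_ne k) (Pool.Agent.Y31.XF.cv_eq k)
  refine and_congr (fin_eqv _ _ e1) ?_
  constructor
  · intro h1 n x hx
    have h4 := h1 n (e2.symm x) (by rw [← map_nsmul, hx, map_zero])
    exact (map_eq_zero_iff e2.symm e2.symm.injective).1 h4
  · intro h1 n x hx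
    have h4 := h1 n (e2 x) (by rw [← map_nsmul, hx, map_zero])
    exact (map_eq_zero_iff e2 e2.injective).1 h4

/-- over the fields of odd degree -/
theorem Dat.overK (h : Dat D P S) (H : Pool.Agent.Y682.XF.Parts) (hU : Pool.Agent.Y682.XF.S_REGU)
    (q : ℕ) [NeZero q] (hq : IsPrimePow q) (hco : q.Coprime 14) (M : Type) [Field M]
    [NumberField M] [IsCyclotomicExtension {q} ℚ M] (K : IntermediateField ℚ M)
    (hodd : Odd (Module.finrank ℚ K))
    (hcl : 3 ∣ q ∨ ((Ideal.span {((2 : ℕ) : 𝓞 K)}).IsPrime ∧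
      (Ideal.span {((7 : ℕ) : 𝓞 K)}).IsPrime ∧ Odd (Nat.card (NCl K))))
    (hDp : ∀ l : ℕ, l.Prime → l ∣ D → ¬ l ∣ q ∧ (Ideal.span {((l : ℕ) : 𝓞 K)}).IsPrime) :
    Cl2 K (WM (D : ℤ)) (kap (∏ q ∈ S, q) P = 1) ∧
      (∀ v : HeightOneSpectrum (𝓞 ℚ), Pool.Agent.Y682.XF.MinimalAt (WM (D : ℤ)) v) ∧
      {v : HeightOneSpectrum (𝓞 ℚ) | Pool.Agent.Y682.XF.c (WM (D : ℤ)) v ≠ 1}.Finite := by
  have hDp' : ∀ p : ℕ, p.Prime → p ∣ D → ¬ p ∣ 14 * q ∧ (Ideal.span {((p : ℕ) : 𝓞 K)}).IsPrime := by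
    intro p hp hpD
    obtain ⟨k1, k2⟩ := hDp p hp hpD
    refine ⟨fun h' => ?_, k2⟩
    rcases hp.dvd_mul.1 h' with h' | h'
    · exact h.n14 hp hpD h'
    · exact k1 h'
  obtain ⟨h1, h2, h3, h4, h5, ⟨e⟩, -⟩ := Pool.Agent.Y682.XF.final H hU q hq hco M K hodd hcl
    (D : ℤ) h.sq (by have := h.mod; omega)
    fun p hp hpD => hDp' p hp (Int.natCast_dvd_natCast.1 hpD)
  have hD4 : (D : ℤ) % 4 = 1 := by have := h.mod; omega
  refine ⟨⟨h1, h3, ?_, ?_⟩, h2, h4⟩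
  · exact value_K H q hq hco M K hodd hcl h.sq h.mod h.one hDp' fun s t Op Om hSy => h.val hSy.H
  · rw [← h.arQ]
    refine and_congr ?_ ?_
    · rw [← fin_K H hD4 K hodd, ← fin_K H hD4 ℚ (by rw [Module.finrank_self]; exact odd_one), h5]
    · rw [Nat.card_congr e.toEquiv]

/-- over `ℚ` -/
theorem Dat.overQ (h : Dat D P S) (H : Pool.Agent.Y682.XF.Parts)
    (hU : Pool.Agent.Y682.XF.S_REGU) : Cl2 ℚ (WM (D : ℤ)) (kap (∏ q ∈ S, q) P = 1) := by
  obtain ⟨M, _, _, _, K, hK⟩ : ∃ (M : Type) (_ : Field M) (_ : NumberField M)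
      (_ : IsCyclotomicExtension {3} ℚ M) (K : IntermediateField ℚ M), K = ⊥ :=
    exists_cyc3
  have e0 : ℚ ≃+* K := by
    rw [hK]
    exact (IntermediateField.botEquiv ℚ M).symm.toRingEquiv
  have hprime : ∀ p : ℕ, p.Prime → (Ideal.span {((p : ℕ) : 𝓞 K)}).IsPrime :=
    fun p hp => Pool.Agent.Y682.XD.prime_tr e0 p (Pool.Agent.Y682.XF.prime_Q hp)
  have hfin : Module.finrank ℚ K = 1 := by
    rw [hK]
    exact IntermediateField.finrank_bot
  have hodd : Odd (Module.finrank ℚ K) := by rw [hfin]; exact odd_one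
  obtain ⟨-, h2, h3⟩ := h.overK H hU 3 Nat.prime_three.isPrimePow (by norm_num) M K hodd
    (Or.inl dvd_rfl) (fun l hl hlD => by
      refine ⟨fun h3 => ?_, hprime l hl⟩
      exact (h.n3 hl hlD).2.1 ((Nat.prime_dvd_prime_iff_eq hl Nat.prime_three).1 h3))
  refine ⟨h2, h3, ?_, h.arQ⟩
  obtain ⟨z, ⟨L, hL1, hL2, hL3, hL4, hL5, hL6⟩, hz2, hz3⟩ := value_Q H h.sq h.mod h.cop42 h.one
    (Gd := kap (∏ q ∈ S, q) P = 1) fun s t Op Om hSy => h.val hSy.H
  refine ⟨z, ⟨L, hL1, hL2, hL3, hL4, hL5, ?_⟩, hz2, hz3⟩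
  have hdQ : ((√|(discr ℚ : ℝ)| : ℝ) : ℂ) = 1 := by
    rw [Rat.numberField_discr]
    norm_num
  rw [hdQ, mul_one]
  exact hL6

/-- over the cyclotomic `ℤ₃`-extension -/
theorem Dat.over3 (h : Dat D P S) (H : Pool.Agent.Y682.XF.Parts) (hU : Pool.Agent.Y682.XF.S_REGU)
    (h9 : ∀ l : ℕ, l.Prime → l ∣ D → l % 9 ≠ 1 ∧ l % 9 ≠ 8) (n : ℕ) (M : Type) [Field M]
    [NumberField M] [IsCyclotomicExtension {3 ^ (n + 1)} ℚ M] (K : IntermediateField ℚ M)
    (hodd : Odd (Module.finrank ℚ K)) : Cl2 K (WM (D : ℤ)) (kap (∏ q ∈ S, q) P = 1) := by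
  have hnz : NeZero (3 ^ (n + 1)) := ⟨by positivity⟩
  refine (h.overK H hU (3 ^ (n + 1)) ⟨3, n + 1, Nat.prime_three.prime, by omega, rfl⟩
    (Nat.Coprime.pow_left _ (by norm_num)) M K hodd (Or.inl (dvd_pow_self 3 (by omega)))
    fun l hl hlD => ?_).1
  have h3 : l ≠ 3 := (h.n3 hl hlD).2.1
  have hn3 : ¬ 3 ∣ l := fun h => h3 ((Nat.prime_dvd_prime_iff_eq Nat.prime_three hl).1 h).symm
  refine ⟨fun hd => h3 ((Nat.prime_dvd_prime_iff_eq hl Nat.prime_three).1 (hl.dvd_of_dvd_pow hd)),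
    inert9 (n := n) K hodd hl ?_⟩
  have := h9 l hl hlD
  omega

end

end Pool.Agent.U115.XP
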