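import Pool.Agent.U115.XP.Sel
import Pool.Agent.U115.TP.Bound

/-!
# The bound for the rank and the 2-torsion of the Tate-Shafarevich group
-/

set_option autoImplicit false
set_option linter.style.haveILetI false

attribute [-instance] DivisionRing.toRatAlgebra

open NumberField IsDedekindDomain

namespace Pool.Agent.U115.XP

open Pool.Agent.Y682
open Pool.Agent.TH841.NF.D (rk Sha)
open Pool.Agent.U115.TP (exists_sqf lsol_of_LL1 lsol_of_LL2 cl cl_eq)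

open scoped Classical

variable {m : ℕ} {P : Finset ℕ}

/-- the number of the sets of the kernel -/
noncomputable def kap (m : ℕ) (P : Finset ℕ) : ℕ := (P.powerset.filter fun J => Ker m P J).card

/-- the classes of the products -/
noncomputable def clJ (J : Finset ℕ) (u : ℤ) : ℚˣ ⧸ Sq ℚ :=
  if h : ((((∏ q ∈ J, q : ℕ) : ℤ) * u : ℤ) : ℚ) ≠ 0 then cl (((∏ q ∈ J, q : ℕ) : ℤ) * u) h else 1

/-- `2 ^ rank * #Ш[2] ≤ κ²` -/
theorem HB.bound (H : HB m P) {D : ℕ} (hDe : D = (∏ p ∈ P, p) * m) :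
    Finite {x : Sha (wc (13 * (D : ℚ)) (128 * (D : ℚ) ^ 2)) // 2 • x = 0} ∧
    2 ^ rk (wc (13 * (D : ℚ)) (128 * (D : ℚ) ^ 2)) *
      Nat.card {x : Sha (wc (13 * (D : ℚ)) (128 * (D : ℚ) ^ 2)) // 2 • x = 0} ≤ kap m P ^ 2 := by
  have hDz : (D : ℤ) ≠ 0 := by rw [hDe]; exact H.sqf.ne_zero
  have hDq : (D : ℚ) ≠ 0 := by exact_mod_cast hDz
  have hDq2 : (0 : ℚ) < (D : ℚ) ^ 2 := by positivity
  have hDr : (D : ℝ) ≠ 0 := by exact_mod_cast hDz
  have hDR : (0 : ℝ) < (D : ℝ) ^ 2 := by positivity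
  have hB : (128 * (D : ℚ) ^ 2) ≠ 0 := mul_ne_zero (by norm_num) hDq2.ne'
  have hDD : (13 * (D : ℚ)) ^ 2 - 4 * (128 * (D : ℚ) ^ 2) ≠ 0 := by
    have : (13 * (D : ℚ)) ^ 2 - 4 * (128 * (D : ℚ) ^ 2) = -343 * (D : ℚ) ^ 2 := by ring
    rw [this]
    exact mul_ne_zero (by norm_num) hDq2.ne'
  have hT := wc_isT hB hDD
  have eA : (13 * (D : ℚ)) = ((13 * (D : ℤ) : ℤ) : ℚ) := by push_cast; ring
  have eB : (128 * (D : ℚ) ^ 2) = ((128 * (D : ℤ) ^ 2 : ℤ) : ℚ) := by push_cast; ring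
  set KK := P.powerset.filter fun J => Ker m P J with hKK
  set U : Set (ℚˣ ⧸ Sq ℚ) := ↑((KK ×ˢ ({1, 2} : Finset ℤ)).image (fun x => clJ x.1 x.2)) with hU
  set V : Set (ℚˣ ⧸ Sq ℚ) := ↑((KK ×ˢ ({1, -7} : Finset ℤ)).image (fun x => clJ x.1 x.2)) with hV
  have hUf : Finite U := (Finset.finite_toSet _).to_subtype
  have hVf : Finite V := (Finset.finite_toSet _).to_subtype
  have hUc : Nat.card U ≤ 2 * kap m P := by
    rw [Nat.card_coe_set_eq, hU, Set.ncard_coe_finset]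
    refine Finset.card_image_le.trans ?_
    rw [Finset.card_product, show ({1, 2} : Finset ℤ).card = 2 from rfl, mul_comm]
    rfl
  have hVc : Nat.card V ≤ 2 * kap m P := by
    rw [Nat.card_coe_set_eq, hV, Set.ncard_coe_finset]
    refine Finset.card_image_le.trans ?_
    rw [Finset.card_product, show ({1, -7} : Finset ℤ).card = 2 from rfl, mul_comm]
    rfl
  have h1V : (1 : ℚˣ ⧸ Sq ℚ) ∈ V := by
    rw [hV, Finset.mem_coe, Finset.mem_image]
    refine ⟨(∅, 1), ?_, ?_⟩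
    · rw [Finset.mem_product, hKK, Finset.mem_filter]
      refine ⟨⟨Finset.empty_mem_powerset _, ?_, ?_⟩, by simp⟩
      · intro p _
        rw [Finset.prod_empty]
        exact ⟨1, by norm_num⟩
      · intro p hp
        exact absurd hp (Finset.notMem_empty p)
    · have h0 := cl_eq (b := 1) (d := ((∏ q ∈ (∅ : Finset ℕ), q : ℕ) : ℤ) * 1) (t := 1) one_ne_zero
        (by push_cast; norm_num) (by push_cast; norm_num)
      have h1 : ((((∏ q ∈ (∅ : Finset ℕ), q : ℕ) : ℤ) * 1 : ℤ) : ℚ) ≠ 0 := by push_cast; norm_num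
      unfold clJ
      rw [dif_pos h1, ← h0]
      rfl
  have H1 : ∀ b : ℚˣ, LL1 (13 * (D : ℚ)) (128 * (D : ℚ) ^ 2) (b : ℚ) → (b : ℚˣ ⧸ Sq ℚ) ∈ U := by
    intro b hb
    obtain ⟨d, t, hd, ht, hbd⟩ := exists_sqf (b : ℚ) b.ne_zero
    have hpos : 0 < d := by
      have h1 := pos_b1 hb.2 (Rat.castHom ℝ) (by
          change (0 : ℝ) < ((128 * (D : ℚ) ^ 2 : ℚ) : ℝ)
          push_cast
          linarith) (Or.inr (by
          change ((13 * (D : ℚ) : ℚ) : ℝ) ^ 2 < 4 * ((128 * (D : ℚ) ^ 2 : ℚ) : ℝ)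
          push_cast
          nlinarith))
      have h2 : (0 : ℝ) < ((b : ℚ) : ℝ) := h1
      have h3 : (0 : ℚ) < (b : ℚ) := by exact_mod_cast h2
      rw [hbd] at h3
      have h4 : (0 : ℚ) < t ^ 2 := by positivity
      have h5 : (0 : ℚ) < d := (mul_pos_iff_of_pos_right h4).1 h3
      exact_mod_cast h5
    rw [eA, eB] at hb
    obtain ⟨J, hJP, hJ, hcl⟩ := H.sel1 hd hpos fun l _ => by
      have := lsol_of_LL1 ht hbd hd hb l
      rw [← hDe]
      exact this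
    have hd0 : (d : ℚ) ≠ 0 := by exact_mod_cast hd.ne_zero
    have hJK : J ∈ KK := Finset.mem_filter.2 ⟨Finset.mem_powerset.2 hJP, hJ⟩
    rw [cl_eq ht hbd hd0, hU, Finset.mem_coe, Finset.mem_image]
    rcases hcl with h | h
    · subst h
      refine ⟨(J, 1), Finset.mem_product.2 ⟨hJK, by simp⟩, ?_⟩
      unfold clJ
      rw [dif_pos hd0]
    · subst h
      refine ⟨(J, 2), Finset.mem_product.2 ⟨hJK, by simp⟩, ?_⟩
      unfold clJ
      rw [dif_pos hd0]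
  have H2 : ∀ b : ℚˣ, LL2 (13 * (D : ℚ)) (128 * (D : ℚ) ^ 2) (b : ℚ) → (b : ℚˣ ⧸ Sq ℚ) ∈ V := by
    intro b hb
    obtain ⟨d, t, hd, ht, hbd⟩ := exists_sqf (b : ℚ) b.ne_zero
    rw [eA, eB] at hb
    obtain ⟨J, hJP, hJ, hcl⟩ := H.sel2 hd fun l _ => by
      have := lsol_of_LL2 (A' := -26 * (D : ℤ)) (B' := -343 * (D : ℤ) ^ 2) ht hbd hd hb
        (by ring) (by ring) l
      rw [← hDe]
      exact this
    have hd0 : (d : ℚ) ≠ 0 := by exact_mod_cast hd.ne_zero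
    have hJK : J ∈ KK := Finset.mem_filter.2 ⟨Finset.mem_powerset.2 hJP, hJ⟩
    rw [cl_eq ht hbd hd0, hV, Finset.mem_coe, Finset.mem_image]
    rcases hcl with h | h
    · subst h
      refine ⟨(J, 1), Finset.mem_product.2 ⟨hJK, by simp⟩, ?_⟩
      unfold clJ
      rw [dif_pos hd0]
    · subst h
      refine ⟨(J, -7), Finset.mem_product.2 ⟨hJK, by simp⟩, ?_⟩
      unfold clJ
      rw [dif_pos hd0]
  obtain ⟨hf, hc⟩ := Zc_card (U := U) (V := V) hT h1V H1 H2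
  obtain ⟨hf', hl⟩ := Zc_lower hT
  refine ⟨hf', ?_⟩
  have hl' : 4 * 2 ^ rk (wc (13 * (D : ℚ)) (128 * (D : ℚ) ^ 2)) *
      Nat.card {x : Sha (wc (13 * (D : ℚ)) (128 * (D : ℚ) ^ 2)) // 2 • x = 0} ≤
      (2 * kap m P) * (2 * kap m P) := hl.trans (hc.trans (Nat.mul_le_mul hUc hVc))
  nlinarith

end Pool.Agent.U115.XP
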