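import Pool.Agent.U115.XP.Sel
import Pool.Agent.Y971.SG.Lq

/-!
# Local points of the coverings attached to the kernel
-/

set_option autoImplicit false
set_option linter.style.haveILetI false

namespace Pool.Agent.U115.XP

open Finset
open Pool.Agent.TH841.LS.LOCA0
open Pool.Agent.Y698.SG.Cv (LocI)
open Pool.Agent.Y687 (Rt prime_cast_ne)
open Pool.Agent.Y971.SG.Lq (t_LQ t_SQ padic_sq2)
open Pool.Agent.U115.TP (erase_prod)

/-- the primes of good reduction -/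
theorem lg14 (p : ℕ) [hp : Fact p.Prime] (M d : ℤ) (h2 : p ≠ 2) (h7 : p ≠ 7)
    (hM : ¬ (p : ℤ) ∣ M) (hd : ¬ (p : ℤ) ∣ d) : LocI ℚ_[p] (13 * M) (128 * M ^ 2) d := by
  have hMz : (M : ZMod p) ≠ 0 := by
    intro h0
    exact hM ((ZMod.intCast_zmod_eq_zero_iff_dvd M p).1 h0)
  have hdz : (d : ZMod p) ≠ 0 := by
    intro h0
    exact hd ((ZMod.intCast_zmod_eq_zero_iff_dvd d p).1 h0)
  have h7z : (7 : ZMod p) ≠ 0 := by exact_mod_cast prime_cast_ne hp.out 7 (by norm_num) h7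
  have h2z : (2 : ZMod p) ≠ 0 := by exact_mod_cast prime_cast_ne hp.out 2 (by norm_num) h2
  have hM0 : M ≠ 0 := by
    rintro rfl
    exact hM (dvd_zero _)
  have hd0 : d ≠ 0 := by
    rintro rfl
    exact hd (dvd_zero _)
  have hc0 : (13 * M : ℤ) ^ 2 - 4 * (128 * M ^ 2) ≠ 0 := by
    have : (13 * M : ℤ) ^ 2 - 4 * (128 * M ^ 2) = -343 * M ^ 2 := by ring
    rw [this]
    exact mul_ne_zero (by norm_num) (pow_ne_zero 2 hM0)
  have hq := Pool.Agent.Y587.SG.lq (13 * M) (128 * M ^ 2) d hc0 hd0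
  have hcz : (((13 * M : ℤ) : ZMod p)) ^ 2 - 4 * (((128 * M ^ 2 : ℤ)) : ZMod p) ≠ 0 := by
    have : (((13 * M : ℤ) : ZMod p)) ^ 2 - 4 * (((128 * M ^ 2 : ℤ)) : ZMod p) =
        -(7 ^ 3 * (M : ZMod p) ^ 2) := by
      push_cast
      ring
    rw [this]
    exact neg_ne_zero.2 (mul_ne_zero (pow_ne_zero 3 h7z) (pow_ne_zero 2 hMz))
  have hbz : (((128 * M ^ 2 : ℤ)) : ZMod p) ≠ 0 := by
    push_cast
    have : (128 : ZMod p) = 2 ^ 7 := by norm_num
    rw [this]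
    exact mul_ne_zero (pow_ne_zero 7 h2z) (pow_ne_zero 2 hMz)
  have sq : ∀ u : ℤ_[p], quadraticChar (ZMod p) (PadicInt.toZMod u) = 1 →
      IsSquare (u : ℚ_[p]) := by
    intro u hu
    obtain ⟨v, hv⟩ := sq_of_char h2 hu
    exact ⟨v, by rw [hv]; push_cast; ring⟩
  rcases quadraticChar_dichotomy hdz with hd1 | hd1
  · apply hq p
    left
    have := sq (d : ℤ_[p]) (by rw [map_intCast]; exact hd1)
    push_cast at this
    exact this
  · rcases quadraticChar_dichotomy hcz with hc1 | hc1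
    · exact Pool.Agent.Y587.SG.aux p _ _ d h2 hbz hc1 hd0 hd1
    · apply hq p
      right
      have := sq ((d : ℤ_[p]) * (((13 * M : ℤ) : ℤ_[p]) ^ 2 - 4 * ((128 * M ^ 2 : ℤ) : ℤ_[p]))) (by
        have e : PadicInt.toZMod ((d : ℤ_[p]) * (((13 * M : ℤ) : ℤ_[p]) ^ 2 -
            4 * ((128 * M ^ 2 : ℤ) : ℤ_[p]))) = (d : ZMod p) *
            ((((13 * M : ℤ) : ZMod p)) ^ 2 - 4 * (((128 * M ^ 2 : ℤ)) : ZMod p)) := by
          rw [map_mul, map_sub, map_pow, map_mul, map_intCast, map_intCast, map_intCast, map_ofNat]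
        rw [e, map_mul, hd1, hc1]
        norm_num)
      push_cast at this
      push_cast
      exact this

variable {m : ℕ} {P J : Finset ℕ}

/-- the split primes which divide `d` -/
theorem loc_J (H : HB m P) (hJP : J ⊆ P) (hK : Ker m P J) (p : ℕ) [hp : Fact p.Prime]
    (hpJ : p ∈ J) : LocI ℚ_[p] (13 * (((∏ p ∈ P, p) * m : ℕ) : ℤ))
      (128 * (((∏ p ∈ P, p) * m : ℕ) : ℤ) ^ 2) ((∏ q ∈ J, q : ℕ) : ℤ) := by
  obtain ⟨pp, p8, p7, hsev⟩ := H.pr p (hJP hpJ)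
  have p2 : p ≠ 2 := by rintro rfl; omega
  have n2 : (2 : ZMod p) ≠ 0 := by exact_mod_cast prime_cast_ne pp 2 Nat.prime_two p2
  have n7 : (7 : ZMod p) ≠ 0 := by exact_mod_cast prime_cast_ne pp 7 (by norm_num) p7
  -- the square root of two
  obtain ⟨τ, hτ⟩ : IsSquare (2 : ℤ_[p]) := by
    apply sq_of_char p2
    rw [map_ofNat]
    exact (quadraticChar_one_iff_isSquare n2).2
      ((ZMod.exists_sq_eq_two_iff p2).2 (Or.inl p8))
  -- `m` is a unit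
  have hpm : (m : ZMod p) ≠ 0 := by
    rw [Ne, ZMod.natCast_eq_zero_iff]
    intro h
    have h1 : (p : ℤ) ∣ ((∏ p ∈ P, p : ℕ) : ℤ) :=
      Int.natCast_dvd_natCast.2 (Finset.dvd_prod_of_mem _ (hJP hpJ))
    have h2 : (p : ℤ) * p ∣ (((∏ p ∈ P, p) * m : ℕ) : ℤ) := by
      push_cast at h1 ⊢
      exact mul_dvd_mul h1 (by exact_mod_cast h)
    exact (Nat.prime_iff_prime_int.1 pp).not_isUnit (H.sqf _ h2)
  have hC0 : ((∏ q ∈ P \ J, q : ℕ) : ZMod p) ≠ 0 :=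
    prod_ne (fun q hq => (H.pr q (Finset.mem_sdiff.1 hq).1).1)
      (fun h => (Finset.mem_sdiff.1 h).2 hpJ)
  -- the root
  set σ : ZMod p := PadicInt.toZMod τ with hσ
  have hσ2 : σ * σ = 2 := by rw [hσ, ← map_mul, ← hτ, map_ofNat]
  have hX : ((m : ZMod p) * (13 + 16 * σ)) ^ 2 - 26 * (m : ZMod p) * ((m : ZMod p) * (13 + 16 * σ)) -
      343 * (m : ZMod p) ^ 2 = 0 := by
    linear_combination (256 * (m : ZMod p) ^ 2) * hσ2
  have hX0 : (m : ZMod p) * (13 + 16 * σ) ≠ 0 := by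
    intro h0
    rw [h0] at hX
    have h1 : (7 : ZMod p) ^ 3 * (m : ZMod p) ^ 2 = 0 := by linear_combination -hX
    exact mul_ne_zero (pow_ne_zero 3 n7) (pow_ne_zero 2 hpm) h1
  have hiff := rt_iff2 p8 p7 hsev hpm hX
  have hk := hK.2 p hpJ
  have hsq : IsSquare (((∏ q ∈ P \ J, q : ℕ) : ZMod p) * ((m : ZMod p) * (13 + 16 * σ))) := by
    have h1 : IsSquare ((∏ q ∈ P \ J, q : ℕ) : ZMod p) ↔ IsSquare ((m : ZMod p) * (13 + 16 * σ)) := by
      rw [hiff]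
      tauto
    rw [← quadraticChar_one_iff_isSquare hC0, ← quadraticChar_one_iff_isSquare hX0] at h1
    rw [← quadraticChar_one_iff_isSquare (mul_ne_zero hC0 hX0), map_mul]
    rcases quadraticChar_dichotomy hC0 with a | a <;> rcases quadraticChar_dichotomy hX0 with b | b
    · rw [a, b, one_mul]
    · exact absurd (h1.1 a) (by rw [b]; norm_num)
    · exact absurd (h1.2 b) (by rw [a]; norm_num)
    · rw [a, b]; norm_num
  obtain ⟨r, hr⟩ := sq_of_char p2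
    (u := ((∏ q ∈ P \ J, q : ℕ) : ℤ_[p]) * ((m : ℤ_[p]) * (13 + 16 * τ))) (by
      have e : PadicInt.toZMod (((∏ q ∈ P \ J, q : ℕ) : ℤ_[p]) * ((m : ℤ_[p]) * (13 + 16 * τ))) =
          ((∏ q ∈ P \ J, q : ℕ) : ZMod p) * ((m : ZMod p) * (13 + 16 * σ)) := by
        rw [map_mul, map_mul, map_add, map_mul, map_natCast, map_natCast, map_ofNat, map_ofNat]
      rw [e]
      exact (quadraticChar_one_iff_isSquare (mul_ne_zero hC0 hX0)).2 hsq)
  -- the point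
  have hτ' : ((τ : ℤ_[p]) : ℚ_[p]) * τ = 2 := by
    have := congrArg (fun z : ℤ_[p] => (z : ℚ_[p])) hτ
    push_cast at this
    have h2 : ((2 : ℤ_[p]) : ℚ_[p]) = 2 := rfl
    rw [h2] at this
    exact this.symm
  have hr' : ((∏ q ∈ P \ J, q : ℕ) : ℚ_[p]) * ((m : ℚ_[p]) * (13 + 16 * (τ : ℚ_[p]))) =
      (r : ℚ_[p]) * r := by
    have := congrArg (fun z : ℤ_[p] => (z : ℚ_[p])) hr
    have h13 : ((13 : ℤ_[p]) : ℚ_[p]) = 13 := rfl
    have h16 : ((16 : ℤ_[p]) : ℚ_[p]) = 16 := rfl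
    simp only [PadicInt.coe_mul, PadicInt.coe_add, PadicInt.coe_natCast, h13, h16] at this
    exact this
  have hMd : (((∏ p ∈ P, p) * m : ℕ) : ℤ) =
      ((∏ q ∈ J, q : ℕ) : ℤ) * (((∏ q ∈ P \ J, q : ℕ) : ℤ) * m) := by
    rw [← Finset.prod_sdiff hJP]
    push_cast
    ring
  have hM0 : ((((∏ p ∈ P, p) * m : ℕ) : ℤ) : ℚ_[p]) ≠ 0 := by
    exact_mod_cast H.sqf.ne_zero
  have h1316 : (13 + 16 * (τ : ℚ_[p])) ≠ 0 := by
    intro h
    have h1 : (343 : ℚ_[p]) = 0 := by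
      linear_combination (13 - 16 * (τ : ℚ_[p])) * (-h) - 256 * hτ'
    norm_num at h1
  refine ⟨((((∏ p ∈ P, p) * m : ℕ) : ℤ) : ℚ_[p]) * (13 + 16 * (τ : ℚ_[p])), 0, (r : ℚ_[p]),
    mul_ne_zero hM0 h1316, ?_, ?_⟩
  · set M := (((∏ p ∈ P, p) * m : ℕ) : ℤ) with hM
    clear_value M
    push_cast
    linear_combination (-256 * (M : ℚ_[p]) ^ 3 * (13 + 16 * (τ : ℚ_[p]))) * hτ'
  · rw [hMd]
    push_cast
    push_cast at hr'
    linear_combination ((∏ q ∈ J, (q : ℚ_[p]))) * hr'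

/-- all the local points -/
theorem loc_all (H : HB m P) (hJP : J ⊆ P) (hK : Ker m P J) :
    (∀ (p : ℕ) [Fact p.Prime], LocI ℚ_[p] (13 * (((∏ p ∈ P, p) * m : ℕ) : ℤ))
      (128 * (((∏ p ∈ P, p) * m : ℕ) : ℤ) ^ 2) ((∏ q ∈ J, q : ℕ) : ℤ)) ∧
    LocI ℝ (13 * (((∏ p ∈ P, p) * m : ℕ) : ℤ))
      (128 * (((∏ p ∈ P, p) * m : ℕ) : ℤ) ^ 2) ((∏ q ∈ J, q : ℕ) : ℤ) := by
  classical
  have hJp : ∀ l ∈ J, l.Prime ∧ l % 8 = 1 := fun l hl => ⟨(H.pr l (hJP hl)).1, (H.pr l (hJP hl)).2.1⟩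
  set D : ℤ := (((∏ p ∈ P, p) * m : ℕ) : ℤ) with hD
  have hD0 : D ≠ 0 := H.sqf.ne_zero
  have hdpos : 0 < ((∏ q ∈ J, q : ℕ) : ℤ) := by
    exact_mod_cast Finset.prod_pos fun q hq => (hJp q hq).1.pos
  have hb : 128 * D ^ 2 ≠ 0 := by positivity
  have hab : (13 * D) ^ 2 - 4 * (128 * D ^ 2) ≠ 0 := by
    have e : (13 * D) ^ 2 - 4 * (128 * D ^ 2) = -343 * D ^ 2 := by ring
    rw [e]
    exact mul_ne_zero (by norm_num) (pow_ne_zero 2 hD0)
  obtain ⟨lq1, lq2⟩ := t_LQ (13 * D) (128 * D ^ 2) ((∏ q ∈ J, q : ℕ) : ℤ) hb hab hdpos.ne'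
  refine ⟨fun p hpf => ?_, lq2 hdpos⟩
  have hp := hpf.out
  by_cases hp2 : p = 2
  · subst hp2
    refine lq1 2 (Or.inl (padic_sq2 ?_))
    have h1 := prod8 (J := J) fun p hp => (hJp p hp).2
    omega
  have hpd : p ∉ J → ¬ (p : ℤ) ∣ ((∏ q ∈ J, q : ℕ) : ℤ) := fun h h3 => by
    have h4 : ((∏ q ∈ J, q : ℕ) : ZMod p) ≠ 0 := prod_ne (fun q hq => (hJp q hq).1) h
    apply h4
    rw [ZMod.natCast_eq_zero_iff]
    exact Int.natCast_dvd_natCast.1 h3
  have hsq : p ∉ J → IsSquare ((∏ q ∈ J, q : ℕ) : ZMod p) →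
      IsSquare (((∏ q ∈ J, q : ℕ) : ℤ) : ℚ_[p]) := by
    intro h h3
    refine t_SQ p _ hp2 (hpd h) ?_
    rw [Int.cast_natCast]
    exact h3
  by_cases hp7 : p = 7
  · subst hp7
    have h7J : 7 ∉ J := fun h => by have := (hJp 7 h).2; norm_num at this
    refine lq1 7 (Or.inl (hsq h7J ?_))
    push_cast
    refine Finset.prod_induction _ (fun x => IsSquare x) (fun _ _ => IsSquare.mul) IsSquare.one
      fun l hl => ?_
    obtain ⟨lp, l8, l7, ls⟩ := H.pr l (hJP hl)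
    have : Fact l.Prime := ⟨lp⟩
    have : Fact (Nat.Prime 7) := ⟨by norm_num⟩
    rw [← ZMod.exists_sq_eq_prime_iff_of_mod_four_eq_one (by omega : l % 4 = 1)
      (by norm_num : (7 : ℕ) ≠ 2)]
    have h1 : IsSquare (-1 : ZMod l) := ZMod.exists_sq_eq_neg_one_iff.2 (by omega)
    have e : ((7 : ℕ) : ZMod l) = (-1) * (-7) := by push_cast; ring
    rw [e]
    exact h1.mul ls
  by_cases hpJ : p ∈ J
  · exact loc_J H hJP hK p hpJ
  by_cases hpP : p ∈ P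
  · exact lq1 p (Or.inl (hsq hpJ (hK.1 p (Finset.mem_sdiff.2 ⟨hpP, hpJ⟩))))
  by_cases hpm : p ∣ m
  · by_cases h3 : IsSquare ((∏ q ∈ J, q : ℕ) : ZMod p)
    · exact lq1 p (Or.inl (hsq hpJ h3))
    · obtain ⟨-, -, hm7, -⟩ := H.two p hp hpm
      have hd0' : (((∏ q ∈ J, q : ℕ) : ℤ) : ZMod p) ≠ 0 := fun h =>
        hpd hpJ ((ZMod.intCast_zmod_eq_zero_iff_dvd _ _).1 h)
      have h70 : ((-7 : ℤ) : ZMod p) ≠ 0 := by
        intro h
        apply hm7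
        have : (-7 : ZMod p) = 0 := by exact_mod_cast h
        rw [this]
        exact ⟨0, by ring⟩
      have h4 : IsSquare ((((-7) * ((∏ q ∈ J, q : ℕ) : ℤ) : ℤ)) : ZMod p) := by
        have e1 : quadraticChar (ZMod p) (((-7) * ((∏ q ∈ J, q : ℕ) : ℤ) : ℤ) : ZMod p) = 1 := by
          rw [Int.cast_mul, map_mul]
          have a1 : quadraticChar (ZMod p) ((-7 : ℤ) : ZMod p) = -1 := by
            rw [quadraticChar_neg_one_iff_not_isSquare]
            intro h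
            apply hm7
            exact_mod_cast h
          have a2 : quadraticChar (ZMod p) ((((∏ q ∈ J, q : ℕ) : ℤ) : ℤ) : ZMod p) = -1 := by
            rw [quadraticChar_neg_one_iff_not_isSquare]
            intro h
            apply h3
            rw [Int.cast_natCast] at h
            exact h
          rw [a1, a2]
          norm_num
        refine (quadraticChar_one_iff_isSquare ?_).1 e1
        rw [Int.cast_mul]
        exact mul_ne_zero h70 hd0'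
      have h5 : IsSquare ((((-7) * ((∏ q ∈ J, q : ℕ) : ℤ) : ℤ)) : ℚ_[p]) := by
        refine t_SQ p ((-7) * ((∏ q ∈ J, q : ℕ) : ℤ)) hp2 ?_ h4
        intro h
        have := (ZMod.intCast_zmod_eq_zero_iff_dvd _ _).2 h
        rw [Int.cast_mul] at this
        exact mul_ne_zero h70 hd0' this
      refine lq1 p (Or.inr ?_)
      obtain ⟨s, hs⟩ := h5
      refine ⟨7 * s * (D : ℚ_[p]), ?_⟩
      push_cast at hs ⊢
      linear_combination (49 * (D : ℚ_[p]) ^ 2) * hs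
  · refine lg14 p D _ hp2 hp7 ?_ (hpd hpJ)
    intro h
    rcases H.cop_case hp h with h1 | h1
    · exact hpP h1
    · exact hpm h1

end Pool.Agent.U115.XP
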