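import Pool.Agent.U115.XP.Bound
import Pool.Agent.U115.XP.LocI
import Pool.Agent.Y698.SG.Ebb

/-!
# The kernel gives elements of order two of the Tate-Shafarevich group
-/

set_option autoImplicit false
set_option linter.style.haveILetI false

attribute [-instance] DivisionRing.toRatAlgebra

open NumberField IsDedekindDomain

namespace Pool.Agent.U115.XP

open Pool.Agent.Y682 (wc)
open Pool.Agent.TH841.NF.D (rk Sha)
open Pool.Agent.Y698.SG (sha_inj prod_symm loc_map)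
open Pool.Agent.Y698.SG.Cv (WF LocI)
open Pool.Agent.H921R2.TatePole Pool.Agent.H82R3.EK

open scoped Classical

variable {m : ℕ} {P : Finset ℕ}

theorem wf_eq (D : ℕ) : WF ℚ (13 * (D : ℤ)) (128 * (D : ℤ) ^ 2) =
    wc (13 * (D : ℚ)) (128 * (D : ℚ) ^ 2) := by
  unfold WF Pool.Agent.Y668.Wt wc
  push_cast
  rfl

theorem not_sq_prod {T : Finset ℕ} (hT : ∀ q ∈ T, q.Prime) (hne : T.Nonempty) :
    ¬ IsSquare (((∏ q ∈ T, q : ℕ) : ℚ)) := by
  rw [Rat.isSquare_natCast_iff]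
  rintro ⟨s, hs⟩
  have h1 : Squarefree (∏ q ∈ T, q) := by
    refine Finset.squarefree_prod_of_pairwise_isCoprime (fun p hp q hq hpq => ?_)
      fun p hp => (hT p hp).squarefree
    show IsRelPrime p q
    rw [← Nat.coprime_iff_isRelPrime]
    exact (Nat.coprime_primes (hT p hp) (hT q hq)).mpr hpq
  have h2 : IsUnit s := h1 s (by rw [hs])
  rw [Nat.isUnit_iff] at h2
  obtain ⟨q, hq⟩ := hne
  have h3 : q ∣ ∏ q ∈ T, q := Finset.dvd_prod_of_mem _ hq
  rw [hs, h2] at h3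
  exact (hT q hq).one_lt.ne' (Nat.dvd_one.1 h3)

/-- if there are finitely many points, the kernel embeds in `Ш[2]` -/
theorem HB.conv (H : HB m P) {D : ℕ} (hDe : D = (∏ p ∈ P, p) * m)
    (hf : Finite (wc (13 * (D : ℚ)) (128 * (D : ℚ) ^ 2)).toAffine.Point) :
    kap m P ≤ Nat.card {x : Sha (wc (13 * (D : ℚ)) (128 * (D : ℚ) ^ 2)) // 2 • x = 0} := by
  have hDz : (D : ℤ) ≠ 0 := by rw [hDe]; exact H.sqf.ne_zero
  have hDq : (D : ℚ) ≠ 0 := by exact_mod_cast hDz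
  have hDq2 : (0 : ℚ) < (D : ℚ) ^ 2 := by positivity
  have hb : (128 * (D : ℤ) ^ 2) ≠ 0 := by positivity
  have hab : (13 * (D : ℤ)) ^ 2 - 4 * (128 * (D : ℤ) ^ 2) ≠ 0 := by
    have : (13 * (D : ℤ)) ^ 2 - 4 * (128 * (D : ℤ) ^ 2) = -343 * (D : ℤ) ^ 2 := by ring
    rw [this]
    exact mul_ne_zero (by norm_num) (pow_ne_zero 2 hDz)
  have eab : (((13 * (D : ℤ) : ℤ) : ℚ)) ^ 2 - 4 * ((128 * (D : ℤ) ^ 2 : ℤ) : ℚ) =
      -343 * (D : ℚ) ^ 2 := by
    push_cast
    ring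
  have nb : ¬ IsSquare (((128 * (D : ℤ) ^ 2 : ℤ)) : ℚ) := by
    rintro ⟨s, hs⟩
    have h2 : IsSquare ((2 : ℕ) : ℚ) := by
      refine ⟨s / (8 * D), ?_⟩
      push_cast at hs
      field_simp
      linear_combination hs
    rw [Rat.isSquare_natCast_iff] at h2
    obtain ⟨k, hk⟩ := h2
    have : k < 2 := by nlinarith
    interval_cases k <;> omega
  have nab : ¬ IsSquare ((((13 * (D : ℤ) : ℤ)) : ℚ) ^ 2 - 4 * ((128 * (D : ℤ) ^ 2 : ℤ) : ℚ)) := by
    rw [eab]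
    rintro ⟨s, hs⟩
    nlinarith [mul_self_nonneg s]
  have hJpr : ∀ J ⊆ P, ∀ q ∈ J, q.Prime := fun J hJ q hq => (H.pr q (hJ hq)).1
  have hJne : ∀ J ⊆ P, ((∏ q ∈ J, q : ℕ) : ℤ) ≠ 0 := fun J hJ => by
    exact_mod_cast Finset.prod_ne_zero_iff.2 fun q hq => (hJpr J hJ q hq).ne_zero
  have hDe' : (((∏ p ∈ P, p) * m : ℕ) : ℤ) = (D : ℤ) := by rw [hDe]
  have key := sha_inj ℚ hb hab nb nab (by rw [wf_eq]; exact hf)
    (ι := {J : Finset ℕ // J ∈ P.powerset.filter fun J => Ker m P J})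
    (fun J => ((∏ q ∈ J.1, q : ℕ) : ℤ))
    (fun J => hJne J.1 (Finset.mem_powerset.1 (Finset.mem_filter.1 J.2).1))
    (fun J v => by
      obtain ⟨l1, -⟩ := loc_all H (Finset.mem_powerset.1 (Finset.mem_filter.1 J.2).1)
        (Finset.mem_filter.1 J.2).2
      rw [hDe'] at l1
      have : Fact (below v : ℕ).Prime := ⟨(below v).2⟩
      exact loc_map (Pool.Agent.Y698.SG.Th.pth (v := v) (p := (below v : ℕ)) (nm_eq v).2.2) (l1 _))
    (fun J => by
      obtain ⟨-, l2⟩ := loc_all H (Finset.mem_powerset.1 (Finset.mem_filter.1 J.2).1)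
        (Finset.mem_filter.1 J.2).2
      rw [hDe'] at l2
      exact l2)
    (by
      intro x y hxy
      have hx := Finset.mem_powerset.1 (Finset.mem_filter.1 x.2).1
      have hy := Finset.mem_powerset.1 (Finset.mem_filter.1 y.2).1
      have hsd : ((x.1 \ y.1) ∪ (y.1 \ x.1)).Nonempty := by
        by_contra hcon
        rw [Finset.not_nonempty_iff_eq_empty, Finset.union_eq_empty,
          Finset.sdiff_eq_empty_iff_subset, Finset.sdiff_eq_empty_iff_subset] at hcon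
        exact hxy (Subtype.ext (Finset.Subset.antisymm hcon.1 hcon.2))
      have hpr : (((((∏ q ∈ x.1, q : ℕ) : ℤ) * ((∏ q ∈ y.1, q : ℕ) : ℤ) : ℤ)) : ℚ) =
          ((∏ q ∈ (x.1 \ y.1) ∪ (y.1 \ x.1), q : ℕ) : ℚ) * ((∏ q ∈ x.1 ∩ y.1, q : ℕ) : ℚ) ^ 2 := by
        have := prod_symm x.1 y.1
        exact_mod_cast this
      have he0 : ((∏ q ∈ x.1 ∩ y.1, q : ℕ) : ℚ) ≠ 0 := by
        have := hJne (x.1 ∩ y.1) (Finset.inter_subset_left.trans hx)
        exact_mod_cast this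
      have hT0 : (0 : ℚ) < ((∏ q ∈ (x.1 \ y.1) ∪ (y.1 \ x.1), q : ℕ) : ℚ) := by
        exact_mod_cast Finset.prod_pos fun q hq => by
          rcases Finset.mem_union.1 hq with h | h
          · exact (hJpr x.1 hx q (Finset.mem_sdiff.1 h).1).pos
          · exact (hJpr y.1 hy q (Finset.mem_sdiff.1 h).1).pos
      have hns := not_sq_prod (T := (x.1 \ y.1) ∪ (y.1 \ x.1)) (by
        intro q hq
        rcases Finset.mem_union.1 hq with h | h
        · exact hJpr x.1 hx q (Finset.mem_sdiff.1 h).1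
        · exact hJpr y.1 hy q (Finset.mem_sdiff.1 h).1) hsd
      refine ⟨?_, ?_⟩
      · rw [hpr]
        rintro ⟨s, hs⟩
        apply hns
        refine ⟨s / ((∏ q ∈ x.1 ∩ y.1, q : ℕ) : ℚ), ?_⟩
        rw [div_mul_div_comm, eq_div_iff (mul_ne_zero he0 he0), ← hs]
        ring
      · rw [hpr, eab]
        rintro ⟨s, hs⟩
        have h1 : (0 : ℚ) < ((∏ q ∈ (x.1 \ y.1) ∪ (y.1 \ x.1), q : ℕ) : ℚ) *
            ((∏ q ∈ x.1 ∩ y.1, q : ℕ) : ℚ) ^ 2 * (343 * (D : ℚ) ^ 2) := by positivity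
        have h2 := mul_self_nonneg s
        rw [← hs] at h2
        linarith)
  rw [wf_eq] at key
  obtain ⟨f, hfi, hf2⟩ := key
  obtain ⟨hfin, -⟩ := H.bound hDe
  let g : {J : Finset ℕ // J ∈ P.powerset.filter fun J => Ker m P J} →
      {x : Sha (wc (13 * (D : ℚ)) (128 * (D : ℚ) ^ 2)) // 2 • x = 0} :=
    fun J => ⟨f J, by rw [two_nsmul]; exact hf2 J⟩
  have hg : Function.Injective g := fun x y h => hfi (congrArg Subtype.val h)
  have h1 := Nat.card_le_card_of_injective g hg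
  rwa [Nat.card_eq_fintype_card, Fintype.card_coe] at h1

end Pool.Agent.U115.XP
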