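import Pool.Agent.U115.TP.Sel
import Pool.Agent.Y587.SG.LG

/-!
# The two isogeny Selmer groups of the twists of `X_0(14)` by `(∏ p) m`, in general
-/

set_option autoImplicit false
set_option linter.style.haveILetI false
set_option linter.unusedVariables false

namespace Pool.Agent.U115.XP

open Finset
open Pool.Agent.Y687 (Rt prime_cast_ne key16a key16b mod4_16 sq16)
open Pool.Agent.U115.TP (LSol one_prime erase_prod even_cases)
open Pool.Agent.U115.TP.LSol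

/-- the two roots have the same class -/
theorem root_sq {p m : ℕ} [hp : Fact p.Prime] (hp8 : p % 8 = 1) {ρ ρ' : ZMod p}
    (h : ρ ^ 2 + 13 * (m : ZMod p) * ρ + 128 * (m : ZMod p) ^ 2 = 0)
    (h' : ρ' ^ 2 + 13 * (m : ZMod p) * ρ' + 128 * (m : ZMod p) ^ 2 = 0) (h0 : ρ' ≠ 0)
    (hs : IsSquare ρ') : IsSquare ρ := by
  by_cases he : ρ = ρ'
  · rw [he]; exact hs
  have h1 : (ρ - ρ') * (ρ + ρ' + 13 * (m : ZMod p)) = 0 := by linear_combination h - h'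
  have h2 : ρ + ρ' + 13 * (m : ZMod p) = 0 := (mul_eq_zero.1 h1).resolve_left (sub_ne_zero.2 he)
  have h3 : ρ * ρ' = 128 * (m : ZMod p) ^ 2 := by linear_combination ρ * h2 - h
  obtain ⟨τ, hτ⟩ : IsSquare (2 : ZMod p) :=
    (ZMod.exists_sq_eq_two_iff (by rintro rfl; omega)).2 (Or.inl hp8)
  obtain ⟨s, hs⟩ := hs
  have hs0 : s ≠ 0 := by rintro rfl; apply h0; rw [hs]; ring
  refine ⟨8 * τ * m / s, ?_⟩
  rw [div_mul_div_comm, eq_div_iff (mul_ne_zero hs0 hs0), ← hs]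
  linear_combination h3 + (64 * (m : ZMod p) ^ 2) * hτ

/-- the local condition at a split prime dividing `d`, first descent -/
theorem rt1 {p q m : ℕ} [hp : Fact p.Prime] (hp8 : p % 8 = 1) {M d d1 : ℤ}
    (h : LSol (13 * M) (128 * M ^ 2) d p)
    (hd : Squarefree d) (hM : Squarefree M) (hMM : M = p * (q * m)) (hdd : d = p * d1) :
    ¬ (IsSquare ((d1 : ZMod p) * (q : ZMod p)) ↔ Rt p m) := by
  have hp0 : (p : ℤ) ≠ 0 := by exact_mod_cast hp.out.ne_zero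
  obtain ⟨d1', M1, hdd', hMM', k1, w, e, k2, k3⟩ := h.root hd hM ⟨_, hdd⟩ ⟨_, hMM⟩
  obtain rfl : d1' = d1 := mul_left_cancel₀ hp0 (hdd'.symm.trans hdd)
  obtain rfl : M1 = q * m := mul_left_cancel₀ hp0 (hMM'.symm.trans hMM)
  push_cast at k1 k3
  have hq0 : (q : ZMod p) ≠ 0 := left_ne_zero_of_mul k1
  have hm0 : (m : ZMod p) ≠ 0 := right_ne_zero_of_mul k1
  have n2 : (2 : ZMod p) ≠ 0 := by
    exact_mod_cast prime_cast_ne hp.out 2 Nat.prime_two (by rintro rfl; omega)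
  have n128 : (128 : ZMod p) ≠ 0 := by
    rw [show (128 : ZMod p) = 2 ^ 7 by norm_num]; exact pow_ne_zero _ n2
  set ρ : ZMod p := (d1' : ZMod p) * w ^ 2 / ((q : ZMod p) * e ^ 2) with hρ
  have hroot : ρ ^ 2 + 13 * (m : ZMod p) * ρ + 128 * (m : ZMod p) ^ 2 = 0 := by
    rw [hρ]
    field_simp
    linear_combination k3
  have hρ0 : ρ ≠ 0 := by
    intro h0
    rw [h0] at hroot
    have : (128 : ZMod p) * (m : ZMod p) ^ 2 = 0 := by linear_combination hroot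
    exact mul_ne_zero n128 (pow_ne_zero 2 hm0) this
  have hw0 : w ≠ 0 := by
    intro h0
    apply hρ0
    rw [hρ, h0]; ring
  have key : IsSquare ρ ↔ IsSquare ((d1' : ZMod p) * (q : ZMod p)) := by
    have e1 : (d1' : ZMod p) * (q : ZMod p) = ρ * ((q : ZMod p) * e / w) ^ 2 := by
      rw [hρ]; field_simp
    constructor
    · rintro ⟨s, hs⟩
      exact ⟨s * ((q : ZMod p) * e / w), by rw [e1, hs]; ring⟩
    · rintro ⟨s, hs⟩
      refine ⟨s / ((q : ZMod p) * e / w), ?_⟩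
      have h7 : (q : ZMod p) * e / w ≠ 0 := div_ne_zero (mul_ne_zero hq0 k2) hw0
      rw [div_mul_div_comm, eq_div_iff (mul_ne_zero h7 h7), ← hs, e1]
      ring
  rw [← key]
  intro hiff
  by_cases hs : IsSquare ρ
  · exact hiff.1 hs ρ hroot hs
  · apply hs
    apply hiff.2
    intro x hx hxs
    apply hs
    refine root_sq hp8 hroot hx ?_ hxs
    rintro rfl
    have : (128 : ZMod p) * (m : ZMod p) ^ 2 = 0 := by linear_combination hx
    exact mul_ne_zero n128 (pow_ne_zero 2 hm0) this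

/-- a root of the second quadratic equation and the condition on the first one -/
theorem rt_iff2 {p m : ℕ} [hp : Fact p.Prime] (hp8 : p % 8 = 1) (hp7 : p ≠ 7)
    (hsev : IsSquare (-7 : ZMod p)) (hm0 : (m : ZMod p) ≠ 0) {X : ZMod p}
    (hX : X ^ 2 - 26 * (m : ZMod p) * X - 343 * (m : ZMod p) ^ 2 = 0) :
    (IsSquare X ↔ ¬ Rt p m) := by
  have n2' : (2 : ZMod p) ≠ 0 := by
    exact_mod_cast prime_cast_ne hp.out 2 Nat.prime_two (by rintro rfl; omega)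
  have n7' : (7 : ZMod p) ≠ 0 := by exact_mod_cast prime_cast_ne hp.out 7 (by norm_num) hp7
  have n343 : (343 : ZMod p) ≠ 0 := by
    rw [show (343 : ZMod p) = 7 ^ 3 by norm_num]; exact pow_ne_zero _ n7'
  have n128 : (128 : ZMod p) ≠ 0 := by
    rw [show (128 : ZMod p) = 2 ^ 7 by norm_num]; exact pow_ne_zero _ n2'
  obtain ⟨i, hi⟩ := (ZMod.exists_sq_eq_neg_one_iff (p := p)).2 (by omega)
  obtain ⟨δ, hδ⟩ := hsev
  have hX0 : X ≠ 0 := by
    rintro rfl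
    have : (343 : ZMod p) * (m : ZMod p) ^ 2 = 0 := by linear_combination -hX
    exact mul_ne_zero n343 (pow_ne_zero 2 hm0) this
  set ρ : ZMod p := (m : ZMod p) * (-13 + 7 * δ) / 2 with hρ
  have hρ2 : 2 * ρ = (m : ZMod p) * (-13 + 7 * δ) := by rw [hρ]; field_simp
  have n4 : (4 : ZMod p) ≠ 0 := by
    rw [show (4 : ZMod p) = 2 * 2 by norm_num]; exact mul_ne_zero n2' n2'
  have hroot : ρ ^ 2 + 13 * (m : ZMod p) * ρ + 128 * (m : ZMod p) ^ 2 = 0 := by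
    apply mul_left_cancel₀ n4
    linear_combination (2 * ρ + (m : ZMod p) * (-13 + 7 * δ) + 26 * (m : ZMod p)) * hρ2
      - 49 * (m : ZMod p) ^ 2 * hδ
  have hρ0 : ρ ≠ 0 := by
    intro h0
    rw [h0] at hroot
    have : (128 : ZMod p) * (m : ZMod p) ^ 2 = 0 := by linear_combination hroot
    exact mul_ne_zero n128 (pow_ne_zero 2 hm0) this
  have e1 : 2 * ((13 * (m : ZMod p) - X) / 2) = 13 * (m : ZMod p) - X := by field_simp
  set t : ZMod p := (13 * (m : ZMod p) - X) / 2 with ht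
  have e2 : -X * ρ = (ρ + t) ^ 2 := by
    apply mul_left_cancel₀ n4
    linear_combination (-(4 * ρ + 2 * t + 13 * (m : ZMod p) - X)) * e1 - 4 * hroot - hX
  have e3 : X * ρ = (i * (ρ + t)) ^ 2 := by
    linear_combination (-1 : ZMod p) * e2 + ((ρ + t) ^ 2) * hi
  have key : IsSquare X ↔ IsSquare ρ := by
    constructor
    · rintro ⟨s, hs⟩
      have hs0 : s ≠ 0 := by rintro rfl; apply hX0; rw [hs]; ring
      refine ⟨i * (ρ + t) / s, ?_⟩
      rw [div_mul_div_comm, eq_div_iff (mul_ne_zero hs0 hs0), ← hs]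
      linear_combination e3
    · rintro ⟨s, hs⟩
      have hs0 : s ≠ 0 := by rintro rfl; apply hρ0; rw [hs]; ring
      refine ⟨i * (ρ + t) / s, ?_⟩
      rw [div_mul_div_comm, eq_div_iff (mul_ne_zero hs0 hs0), ← hs]
      linear_combination e3
  rw [key]
  constructor
  · intro hs hR
    exact hR ρ hroot hs
  · intro hR
    by_contra hs
    apply hR
    intro x hx hxs
    apply hs
    refine root_sq hp8 hroot hx ?_ hxs
    rintro rfl
    have : (128 : ZMod p) * (m : ZMod p) ^ 2 = 0 := by linear_combination hx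
    exact mul_ne_zero n128 (pow_ne_zero 2 hm0) this

/-- the local condition at a split prime dividing `d`, second descent -/
theorem rt2 {p q m : ℕ} [hp : Fact p.Prime] (hp8 : p % 8 = 1) (hp7 : p ≠ 7)
    (hsev : IsSquare (-7 : ZMod p)) {M d d1 : ℤ} (h : LSol (-26 * M) (-343 * M ^ 2) d p)
    (hd : Squarefree d) (hM : Squarefree M) (hMM : M = p * (q * m)) (hdd : d = p * d1) :
    ¬ (IsSquare ((d1 : ZMod p) * (q : ZMod p)) ↔ Rt p m) := by
  have hp0 : (p : ℤ) ≠ 0 := by exact_mod_cast hp.out.ne_zero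
  obtain ⟨d1', M1, hdd', hMM', k1, w, e, k2, k3⟩ := h.root hd hM ⟨_, hdd⟩ ⟨_, hMM⟩
  obtain rfl : d1' = d1 := mul_left_cancel₀ hp0 (hdd'.symm.trans hdd)
  obtain rfl : M1 = q * m := mul_left_cancel₀ hp0 (hMM'.symm.trans hMM)
  push_cast at k1 k3
  have hq0 : (q : ZMod p) ≠ 0 := left_ne_zero_of_mul k1
  have hm0 : (m : ZMod p) ≠ 0 := right_ne_zero_of_mul k1
  have n7' : (7 : ZMod p) ≠ 0 := by exact_mod_cast prime_cast_ne hp.out 7 (by norm_num) hp7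
  have n343 : (343 : ZMod p) ≠ 0 := by
    rw [show (343 : ZMod p) = 7 ^ 3 by norm_num]; exact pow_ne_zero _ n7'
  set X : ZMod p := (d1' : ZMod p) * w ^ 2 / ((q : ZMod p) * e ^ 2) with hXd
  have hX : X ^ 2 - 26 * (m : ZMod p) * X - 343 * (m : ZMod p) ^ 2 = 0 := by
    rw [hXd]
    field_simp
    linear_combination k3
  have hX0 : X ≠ 0 := by
    intro h0
    rw [h0] at hX
    have : (343 : ZMod p) * (m : ZMod p) ^ 2 = 0 := by linear_combination -hX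
    exact mul_ne_zero n343 (pow_ne_zero 2 hm0) this
  have hw0 : w ≠ 0 := by
    intro h0
    apply hX0
    rw [hXd, h0]; ring
  have key : IsSquare X ↔ IsSquare ((d1' : ZMod p) * (q : ZMod p)) := by
    have e1 : (d1' : ZMod p) * (q : ZMod p) = X * ((q : ZMod p) * e / w) ^ 2 := by
      rw [hXd]; field_simp
    constructor
    · rintro ⟨s, hs⟩
      exact ⟨s * ((q : ZMod p) * e / w), by rw [e1, hs]; ring⟩
    · rintro ⟨s, hs⟩
      refine ⟨s / ((q : ZMod p) * e / w), ?_⟩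
      have h7 : (q : ZMod p) * e / w ≠ 0 := div_ne_zero (mul_ne_zero hq0 k2) hw0
      rw [div_mul_div_comm, eq_div_iff (mul_ne_zero h7 h7), ← hs, e1]
      ring
  rw [← key, rt_iff2 hp8 hp7 hsev hm0 hX]
  tauto

/-- the hypotheses of the descent for `M = (∏ p) m` -/
structure HB (m : ℕ) (P : Finset ℕ) : Prop where
  m4 : m % 4 = 1
  pr : ∀ p ∈ P, p.Prime ∧ p % 8 = 1 ∧ p ≠ 7 ∧ IsSquare (-7 : ZMod p)
  sqf : Squarefree ((((∏ p ∈ P, p) * m : ℕ)) : ℤ)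
  two : ∀ q : ℕ, q.Prime → q ∣ m → q ≠ 2 ∧ q ≠ 7 ∧ ¬ IsSquare (-7 : ZMod q) ∧ ¬ IsSquare (2 : ZMod q)

/-- the kernel of the matrix: sets of primes -/
def Ker (m : ℕ) (P J : Finset ℕ) : Prop :=
  (∀ p ∈ P \ J, IsSquare ((∏ q ∈ J, q : ℕ) : ZMod p)) ∧
    ∀ p ∈ J, ¬ (IsSquare ((∏ q ∈ P \ J, q : ℕ) : ZMod p) ↔ Rt p m)

variable {m : ℕ} {P : Finset ℕ}

/-- primes dividing `M` -/
theorem HB.cop_case (H : HB m P) {q : ℕ} (hq : q.Prime)
    (h : (q : ℤ) ∣ (((∏ p ∈ P, p) * m : ℕ) : ℤ)) : q ∈ P ∨ q ∣ m := by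
  have h1 : q ∣ (∏ p ∈ P, p) * m := Int.natCast_dvd_natCast.1 h
  rcases hq.dvd_mul.1 h1 with h2 | h2
  · left
    rw [hq.prime.dvd_finsetProd_iff] at h2
    obtain ⟨r, hr, hqr⟩ := h2
    rwa [(Nat.prime_dvd_prime_iff_eq hq (H.pr r hr).1).1 hqr]
  · exact Or.inr h2

/-- the decomposition of `d` -/
theorem HB.shape (H : HB m P) {d : ℤ} (hd : Squarefree d) :
    ∃ (J : Finset ℕ) (u : ℤ), J ⊆ P ∧ (∀ p ∈ P, (p ∈ J ↔ (p : ℤ) ∣ d)) ∧
      d = ((∏ q ∈ J, q : ℕ) : ℤ) * u ∧ ∀ p ∈ P, ¬ (p : ℤ) ∣ u := by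
  classical
  set J : Finset ℕ := P.filter (fun p : ℕ => (p : ℤ) ∣ d) with hJ
  have hJP : J ⊆ P := Finset.filter_subset _ _
  have hdvd : ∏ q ∈ J, q ∣ d.natAbs := by
    refine Finset.prod_primes_dvd _ (fun q hq => (H.pr q (hJP hq)).1.prime) fun q hq => ?_
    exact Int.natCast_dvd.1 (Finset.mem_filter.1 hq).2
  obtain ⟨u, hu⟩ : ((∏ q ∈ J, q : ℕ) : ℤ) ∣ d := Int.natCast_dvd.2 hdvd
  refine ⟨J, u, hJP, fun p hp => ?_, hu, fun p hp hpu => ?_⟩
  · rw [hJ, Finset.mem_filter]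
    exact ⟨fun h => h.2, fun h => ⟨hp, h⟩⟩
  · have hpp := (H.pr p hp).1
    have h1 : (p : ℤ) ∣ d := hu ▸ hpu.mul_left _
    have h2 : p ∈ J := Finset.mem_filter.2 ⟨hp, h1⟩
    have h3 : (p : ℤ) ∣ ((∏ q ∈ J, q : ℕ) : ℤ) :=
      Int.natCast_dvd_natCast.2 (Finset.dvd_prod_of_mem _ h2)
    have h4 := hd (p : ℤ) (by rw [hu]; exact mul_dvd_mul h3 hpu)
    exact (Nat.prime_iff_prime_int.1 hpp).not_isUnit h4

/-- the primes of `m` do not divide `d`, first descent -/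
theorem HB.no_m1 (H : HB m P) {d : ℤ} (hd : Squarefree d) {q : ℕ} [hq : Fact q.Prime]
    (h : LSol (13 * (((∏ p ∈ P, p) * m : ℕ) : ℤ)) (128 * (((∏ p ∈ P, p) * m : ℕ) : ℤ) ^ 2) d q)
    (hqd : (q : ℤ) ∣ d) : ¬ q ∣ m := by
  intro hqm
  obtain ⟨n2, n7, hs7, hs2⟩ := H.two q hq.out hqm
  have hqM : (q : ℤ) ∣ (((∏ p ∈ P, p) * m : ℕ) : ℤ) := Int.natCast_dvd_natCast.2 (hqm.mul_left _)
  obtain ⟨d1, M1, -, -, k1, w, e, k2, k3⟩ := h.root hd H.sqf hqd hqM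
  have n7' : (7 : ZMod q) ≠ 0 := by exact_mod_cast prime_cast_ne hq.out 7 (by norm_num) n7
  set z : ZMod q := (M1 : ZMod q) * e ^ 2 with hz
  have hz0 : z ≠ 0 := mul_ne_zero k1 (pow_ne_zero 2 k2)
  set u : ZMod q := (d1 : ZMod q) * w ^ 2 with hu
  apply hs7
  refine ⟨(2 * u + 13 * z) / (7 * z), ?_⟩
  have h77 : (7 * z) * (7 * z) ≠ 0 := mul_ne_zero (mul_ne_zero n7' hz0) (mul_ne_zero n7' hz0)
  rw [div_mul_div_comm, eq_div_iff h77]
  push_cast at k3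
  linear_combination -4 * k3

/-- the primes of `m` do not divide `d`, second descent -/
theorem HB.no_m2 (H : HB m P) {d : ℤ} (hd : Squarefree d) {q : ℕ} [hq : Fact q.Prime]
    (h : LSol (-26 * (((∏ p ∈ P, p) * m : ℕ) : ℤ)) (-343 * (((∏ p ∈ P, p) * m : ℕ) : ℤ) ^ 2) d q)
    (hqd : (q : ℤ) ∣ d) : ¬ q ∣ m := by
  intro hqm
  obtain ⟨n2, n7, hs7, hs2⟩ := H.two q hq.out hqm
  have hqM : (q : ℤ) ∣ (((∏ p ∈ P, p) * m : ℕ) : ℤ) := Int.natCast_dvd_natCast.2 (hqm.mul_left _)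
  obtain ⟨d1, M1, -, -, k1, w, e, k2, k3⟩ := h.root hd H.sqf hqd hqM
  have n2' : (2 : ZMod q) ≠ 0 := by exact_mod_cast prime_cast_ne hq.out 2 Nat.prime_two n2
  have n16 : (16 : ZMod q) ≠ 0 := by
    rw [show (16 : ZMod q) = 2 ^ 4 by norm_num]; exact pow_ne_zero _ n2'
  set z : ZMod q := (M1 : ZMod q) * e ^ 2 with hz
  have hz0 : z ≠ 0 := mul_ne_zero k1 (pow_ne_zero 2 k2)
  set u : ZMod q := (d1 : ZMod q) * w ^ 2 with hu
  apply hs2
  refine ⟨(u - 13 * z) / (16 * z), ?_⟩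
  have h77 : (16 * z) * (16 * z) ≠ 0 := mul_ne_zero (mul_ne_zero n16 hz0) (mul_ne_zero n16 hz0)
  rw [div_mul_div_comm, eq_div_iff h77]
  push_cast at k3
  linear_combination -k3

/-- the class of `d` at the primes of `J` -/
theorem sq_erase_iff {P J : Finset ℕ} (hJ : J ⊆ P) {p : ℕ} [Fact p.Prime] (hp : p ∈ J) {u : ℤ}
    (hu : IsSquare (u : ZMod p)) (hu0 : (u : ZMod p) ≠ 0)
    (h0 : ((∏ q ∈ J.erase p, q : ℕ) : ZMod p) ≠ 0) :
    IsSquare (((((∏ q ∈ J.erase p, q : ℕ) : ℤ) * u : ℤ) : ZMod p) *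
      ((∏ q ∈ P.erase p, q : ℕ) : ZMod p)) ↔ IsSquare ((∏ q ∈ P \ J, q : ℕ) : ZMod p) := by
  classical
  have h1 : P.erase p = (P \ J) ∪ (J.erase p) := by
    ext q
    simp only [Finset.mem_erase, Finset.mem_union, Finset.mem_sdiff]
    constructor
    · rintro ⟨h1, h2⟩
      by_cases h3 : q ∈ J
      · exact Or.inr ⟨h1, h3⟩
      · exact Or.inl ⟨h2, h3⟩
    · rintro (⟨h1, h2⟩ | ⟨h1, h2⟩)
      · exact ⟨fun h => h2 (h ▸ hp), h1⟩
      · exact ⟨h1, hJ h2⟩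
  have hdis : Disjoint (P \ J) (J.erase p) :=
    Finset.disjoint_left.2 fun q h1 h2 => (Finset.mem_sdiff.1 h1).2 (Finset.mem_of_mem_erase h2)
  rw [h1, Finset.prod_union hdis]
  obtain ⟨a, ha⟩ := hu
  have ha0 : a ≠ 0 := by rintro rfl; apply hu0; rw [ha]; ring
  have e1 : ((((∏ q ∈ J.erase p, q : ℕ) : ℤ) * u : ℤ) : ZMod p) *
      ((((∏ q ∈ P \ J, q) * ∏ q ∈ J.erase p, q : ℕ)) : ZMod p) =
      ((∏ q ∈ P \ J, q : ℕ) : ZMod p) * (((∏ q ∈ J.erase p, q : ℕ) : ZMod p) * a) ^ 2 := by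
    rw [Int.cast_mul, Int.cast_natCast, Nat.cast_mul, ha]
    ring
  rw [e1]
  have h7 : ((∏ q ∈ J.erase p, q : ℕ) : ZMod p) * a ≠ 0 := mul_ne_zero h0 ha0
  constructor
  · rintro ⟨s, hs⟩
    refine ⟨s / (((∏ q ∈ J.erase p, q : ℕ) : ZMod p) * a), ?_⟩
    rw [div_mul_div_comm, eq_div_iff (mul_ne_zero h7 h7), ← hs]
    ring
  · rintro ⟨s, hs⟩
    exact ⟨s * (((∏ q ∈ J.erase p, q : ℕ) : ZMod p) * a), by rw [hs]; ring⟩

/-- the other primes are units -/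
theorem prod_ne {J : Finset ℕ} (hJ : ∀ q ∈ J, q.Prime) {p : ℕ} [hp : Fact p.Prime] (hpJ : p ∉ J) :
    ((∏ q ∈ J, q : ℕ) : ZMod p) ≠ 0 := by
  rw [Ne, ZMod.natCast_eq_zero_iff, hp.out.prime.dvd_finsetProd_iff]
  rintro ⟨r, hr, hpr⟩
  exact hpJ (((Nat.prime_dvd_prime_iff_eq hp.out (hJ r hr)).1 hpr) ▸ hr)

/-- the conditions at the split primes -/
theorem ker_of {d u : ℤ} {J : Finset ℕ} (hpr : ∀ p ∈ P, p.Prime ∧ p % 8 = 1) (hJP : J ⊆ P)
    (hJ : ∀ p ∈ P, (p ∈ J ↔ (p : ℤ) ∣ d)) (hdu : d = ((∏ q ∈ J, q : ℕ) : ℤ) * u)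
    (hu : ∀ p ∈ P, ¬ (p : ℤ) ∣ u) (husq : ∀ p ∈ P, IsSquare (u : ZMod p))
    (h1 : ∀ (p : ℕ) [Fact p.Prime], p ∈ P → p ∉ J → IsSquare (d : ZMod p))
    (h2 : ∀ (p : ℕ) [Fact p.Prime], p ∈ J →
      ¬ (IsSquare ((((((∏ q ∈ J.erase p, q : ℕ) : ℤ) * u : ℤ)) : ZMod p) *
        ((∏ q ∈ P.erase p, q : ℕ) : ZMod p)) ↔ Rt p m)) : Ker m P J := by
  constructor
  · intro p hp
    rw [Finset.mem_sdiff] at hp
    obtain ⟨pp, p8⟩ := hpr p hp.1
    haveI : Fact p.Prime := ⟨pp⟩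
    have hds := h1 p hp.1 hp.2
    rw [hdu] at hds
    push_cast at hds
    obtain ⟨r, hr⟩ := hds
    obtain ⟨s, hs⟩ := husq p hp.1
    have hu0 : (u : ZMod p) ≠ 0 := by
      rw [Ne, ZMod.intCast_zmod_eq_zero_iff_dvd]; exact hu p hp.1
    have hs0 : s ≠ 0 := by rintro rfl; apply hu0; rw [hs]; ring
    refine ⟨r / s, ?_⟩
    rw [div_mul_div_comm, eq_div_iff (mul_ne_zero hs0 hs0), ← hs]
    push_cast
    exact hr
  · intro p hp
    obtain ⟨pp, p8⟩ := hpr p (hJP hp)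
    haveI : Fact p.Prime := ⟨pp⟩
    have hu0 : (u : ZMod p) ≠ 0 := by
      rw [Ne, ZMod.intCast_zmod_eq_zero_iff_dvd]; exact hu p (hJP hp)
    have h0 : ((∏ q ∈ J.erase p, q : ℕ) : ZMod p) ≠ 0 :=
      prod_ne (fun q hq => (hpr q (hJP (Finset.mem_of_mem_erase hq))).1) (Finset.notMem_erase p J)
    rw [← sq_erase_iff hJP hp (husq p (hJP hp)) hu0 h0]
    exact h2 p hp

/-- the first Selmer group -/
theorem HB.sel1 (H : HB m P) {d : ℤ} (hd : Squarefree d) (hpos : 0 < d)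
    (h : ∀ (l : ℕ) [Fact l.Prime],
      LSol (13 * (((∏ p ∈ P, p) * m : ℕ) : ℤ)) (128 * (((∏ p ∈ P, p) * m : ℕ) : ℤ) ^ 2) d l) :
    ∃ J ⊆ P, Ker m P J ∧ (d = ((∏ q ∈ J, q : ℕ) : ℤ) * 1 ∨ d = ((∏ q ∈ J, q : ℕ) : ℤ) * 2) := by
  classical
  obtain ⟨J, u, hJP, hJ, hdu, hu⟩ := H.shape hd
  have husf : Squarefree u := by rw [hdu] at hd; exact hd.of_mul_right
  have hprodpos : (0 : ℤ) < ((∏ q ∈ J, q : ℕ) : ℤ) := by
    exact_mod_cast Finset.prod_pos fun q hq => (H.pr q (hJP hq)).1.pos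
  have hupos : 0 < u := by
    rw [hdu] at hpos
    exact (mul_pos_iff_of_pos_left hprodpos).1 hpos
  -- the unit part
  have hu12 : u = 1 ∨ u = 2 := by
    have h1 := one_prime (l := 2) husf fun q hq hqu => by
      haveI : Fact q.Prime := ⟨hq⟩
      have hqd : (q : ℤ) ∣ d := hdu ▸ hqu.mul_left _
      have h2 := (h q).dvdB hd hqd
      have hqP := Nat.prime_iff_prime_int.1 hq
      rcases hqP.dvd_or_dvd h2 with h3 | h3
      · have h4 : (q : ℤ) ∣ ((2 : ℕ) : ℤ) := by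
          refine hqP.dvd_of_dvd_pow (n := 7) ?_
          norm_num
          exact h3
        exact (Nat.prime_dvd_prime_iff_eq hq Nat.prime_two).1 (Int.natCast_dvd_natCast.1 h4)
      · exfalso
        rcases H.cop_case hq (hqP.dvd_of_dvd_pow h3) with h4 | h4
        · exact hu q h4 hqu
        · exact H.no_m1 hd (h q) hqd h4
    omega
  have husq : ∀ p ∈ P, IsSquare (u : ZMod p) := by
    intro p hp
    obtain ⟨pp, p8, -, -⟩ := H.pr p hp
    haveI : Fact p.Prime := ⟨pp⟩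
    rcases hu12 with rfl | rfl
    · exact ⟨1, by push_cast; ring⟩
    · push_cast
      exact (ZMod.exists_sq_eq_two_iff (by rintro rfl; omega)).2 (Or.inl p8)
  refine ⟨J, hJP, ?_, by rcases hu12 with rfl | rfl <;> [left; right] <;> exact hdu⟩
  refine ker_of (fun p hp => ⟨(H.pr p hp).1, (H.pr p hp).2.1⟩) hJP hJ hdu hu husq ?_ ?_
  · intro p _ hpP hpJ
    obtain ⟨pp, p8, -, -⟩ := H.pr p hpP
    have hpd : ¬ (p : ℤ) ∣ d := fun h1 => hpJ ((hJ p hpP).2 h1)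
    have hpM : (p : ℤ) ∣ (((∏ p ∈ P, p) * m : ℕ) : ℤ) :=
      Int.natCast_dvd_natCast.2 ((Finset.dvd_prod_of_mem _ hpP).mul_right _)
    obtain ⟨τ, hτ⟩ : IsSquare (2 : ZMod p) :=
      (ZMod.exists_sq_eq_two_iff (by rintro rfl; omega)).2 (Or.inl p8)
    have n2 : (2 : ZMod p) ≠ 0 := by
      exact_mod_cast prime_cast_ne pp 2 Nat.prime_two (by rintro rfl; omega)
    exact (h p).sq H.sqf hpd hpM (b := 8 * τ)
      (by push_cast; linear_combination 64 * hτ) (by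
        have hτ0 : τ ≠ 0 := by rintro rfl; apply n2; rw [hτ]; ring
        have h8 : (8 : ZMod p) ≠ 0 := by
          rw [show (8 : ZMod p) = 2 ^ 3 by norm_num]; exact pow_ne_zero _ n2
        exact mul_ne_zero h8 hτ0)
  · intro p _ hp
    obtain ⟨pp, p8, -, -⟩ := H.pr p (hJP hp)
    have hdd : d = p * (((∏ q ∈ J.erase p, q : ℕ) : ℤ) * u) := by
      rw [hdu, ← Finset.mul_prod_erase J (fun q => q) hp]
      push_cast
      ring
    exact rt1 p8 (h p) hd H.sqf (erase_prod (hJP hp) m) hdd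

/-- a unit square does not matter -/
theorem unsq {l : ℕ} [hl : Fact l.Prime] {A B u c : ℤ} {s : ℤ_[l]} (hs : (c : ℤ_[l]) = s ^ 2)
    (hsu : ¬ (l : ℤ_[l]) ∣ s) (h : LSol A B (c * u) l) : LSol A B u l := by
  obtain ⟨w, e, N, hwe, h⟩ := h
  refine ⟨s * w, e, s * N, fun h1 => hwe ⟨?_, h1.2⟩, ?_⟩
  · exact ((PadicInt.prime_p (p := l)).dvd_or_dvd h1.1).resolve_left hsu
  · push_cast at h
    rw [hs] at h
    linear_combination h

theorem sq_two {c : ℤ} (hc : c % 8 = 1) : ∃ s : ℤ_[2], (c : ℤ_[2]) = s ^ 2 ∧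
    ¬ ((2 : ℕ) : ℤ_[2]) ∣ s := by
  obtain ⟨k, hk⟩ : ∃ k : ℤ, c = 1 + 8 * k := ⟨c / 8, by omega⟩
  obtain ⟨s, hs⟩ := Pool.Agent.Y587.SG.hens 2 (k : ℤ_[2])
  refine ⟨s, ?_, ?_⟩
  · rw [hk, pow_two, ← hs]
    push_cast
    ring
  · intro hd
    have h1 : ((2 : ℕ) : ℤ_[2]) ∣ 1 := by
      have h2 : ((2 : ℕ) : ℤ_[2]) ∣ s * s := hd.mul_left _
      rw [← hs] at h2
      have h3 : ((2 : ℕ) : ℤ_[2]) ∣ 4 * ((2 : ℕ) : ℤ_[2]) * (k : ℤ_[2]) := ⟨4 * k, by ring⟩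
      exact (dvd_add_left h3).1 h2
    exact (PadicInt.prime_p (p := 2)).not_isUnit (isUnit_of_dvd_one h1)

theorem prod8 {J : Finset ℕ} (hJ : ∀ q ∈ J, q % 8 = 1) : (∏ q ∈ J, q) % 8 = 1 := by
  refine Finset.prod_induction _ (fun n => n % 8 = 1) ?_ (by norm_num) hJ
  intro a b ha hb
  rw [Nat.mul_mod, ha, hb]

/-- the second Selmer group -/
theorem HB.sel2 (H : HB m P) {d : ℤ} (hd : Squarefree d)
    (h : ∀ (l : ℕ) [Fact l.Prime],
      LSol (-26 * (((∏ p ∈ P, p) * m : ℕ) : ℤ)) (-343 * (((∏ p ∈ P, p) * m : ℕ) : ℤ) ^ 2) d l) :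
    ∃ J ⊆ P, Ker m P J ∧ (d = ((∏ q ∈ J, q : ℕ) : ℤ) * 1 ∨ d = ((∏ q ∈ J, q : ℕ) : ℤ) * (-7)) := by
  classical
  obtain ⟨J, u, hJP, hJ, hdu, hu⟩ := H.shape hd
  have husf : Squarefree u := by rw [hdu] at hd; exact hd.of_mul_right
  -- the unit part
  have hu12 : u = 1 ∨ u = -1 ∨ u = 7 ∨ u = -7 := by
    have h1 := one_prime (l := 7) husf fun q hq hqu => by
      haveI : Fact q.Prime := ⟨hq⟩
      have hqd : (q : ℤ) ∣ d := hdu ▸ hqu.mul_left _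
      have h2 := (h q).dvdB hd hqd
      have hqP := Nat.prime_iff_prime_int.1 hq
      rcases hqP.dvd_or_dvd h2 with h3 | h3
      · have h4 : (q : ℤ) ∣ ((7 : ℕ) : ℤ) := by
          refine hqP.dvd_of_dvd_pow (n := 3) ?_
          norm_num
          exact (dvd_neg.1 h3)
        exact (Nat.prime_dvd_prime_iff_eq hq (by norm_num)).1 (Int.natCast_dvd_natCast.1 h4)
      · exfalso
        rcases H.cop_case hq (hqP.dvd_of_dvd_pow h3) with h4 | h4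
        · exact hu q h4 hqu
        · exact H.no_m2 hd (h q) hqd h4
    omega
  have husq : ∀ p ∈ P, IsSquare (u : ZMod p) := by
    intro p hp
    obtain ⟨pp, p8, -, hs⟩ := H.pr p hp
    haveI : Fact p.Prime := ⟨pp⟩
    obtain ⟨i, hi⟩ := (ZMod.exists_sq_eq_neg_one_iff (p := p)).2 (by omega)
    obtain ⟨δ, hδ⟩ := hs
    rcases hu12 with rfl | rfl | rfl | rfl
    · exact ⟨1, by push_cast; ring⟩
    · exact ⟨i, by push_cast; exact hi⟩
    · exact ⟨i * δ, by push_cast; linear_combination (-7 : ZMod p) * hi + (i * i) * hδ⟩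
    · exact ⟨δ, by push_cast; exact hδ⟩
  have hu17 : u = 1 ∨ u = -7 := by
    have hM4 : ((((∏ p ∈ P, p) * m : ℕ)) : ℤ) % 4 = 1 := by
      have h1 := prod8 (J := P) fun p hp => (H.pr p hp).2.1
      have h2 : ((∏ p ∈ P, p) * m) % 4 = 1 := by
        rw [Nat.mul_mod, H.m4, show (∏ p ∈ P, p) % 4 = 1 by omega]
      omega
    haveI : Fact (Nat.Prime 2) := ⟨Nat.prime_two⟩
    obtain ⟨s, hs, hsu⟩ := sq_two (c := ((∏ q ∈ J, q : ℕ) : ℤ)) (by
      have h1 := prod8 (J := J) fun p hp => (H.pr p (hJP hp)).2.1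
      omega)
    have h2' := h 2
    rw [hdu] at h2'
    obtain ⟨w, e, N, hwe, h16⟩ := (unsq hs hsu h2').mod16
    have hnot : ¬ ((w ^ 2 = 0 ∨ w ^ 2 = 4) ∧ (e ^ 2 = 0 ∨ e ^ 2 = 4)) := by
      have hd1 : (1 : ZMod 16) ≠ 0 := by decide
      have hd2 : (1 : ZMod 16) ≠ 4 := by decide
      have hd3 : (9 : ZMod 16) ≠ 0 := by decide
      have hd4 : (9 : ZMod 16) ≠ 4 := by decide
      rintro ⟨a1, a2⟩
      rcases hwe with h1 | h1 | h1 | h1
      · rw [h1] at a1; exact a1.elim hd1 hd2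
      · rw [h1] at a1; exact a1.elim hd3 hd4
      · rw [h1] at a2; exact a2.elim hd1 hd2
      · rw [h1] at a2; exact a2.elim hd3 hd4
    have hMc := mod4_16 _ hM4
    set M : ℤ := (((∏ p ∈ P, p) * m : ℕ) : ℤ) with hM
    clear_value M
    rcases hu12 with rfl | rfl | rfl | rfl
    · exact Or.inl rfl
    · exfalso
      refine key16a (M : ZMod 16) (N ^ 2) hMc (sq16 _) (w ^ 2) (e ^ 2) (sq16 _) (sq16 _) hnot ?_
      push_cast at h16
      linear_combination h16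
    · exfalso
      refine key16b (M : ZMod 16) (N ^ 2) hMc (sq16 _) (w ^ 2) (e ^ 2) (sq16 _) (sq16 _) hnot ?_
      have h77 : (7 : ZMod 16) * 7 = 1 := by decide
      push_cast at h16
      have h16' : (7 : ZMod 16) * (7 * N ^ 2) = 7 * (49 * w ^ 4 - 182 * (M : ZMod 16) * w ^ 2 * e ^ 2 -
          343 * (M : ZMod 16) ^ 2 * e ^ 4) := by
        linear_combination 7 * h16
      have h3 : N ^ 2 = 7 * w ^ 4 - 26 * (M : ZMod 16) * w ^ 2 * e ^ 2 -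
          49 * (M : ZMod 16) ^ 2 * e ^ 4 := by
        linear_combination h16' - (N ^ 2 - 7 * w ^ 4 + 26 * (M : ZMod 16) * w ^ 2 * e ^ 2 +
          49 * (M : ZMod 16) ^ 2 * e ^ 4) * h77
      linear_combination h3
    · exact Or.inr rfl
  refine ⟨J, hJP, ?_, by rcases hu17 with rfl | rfl <;> [left; right] <;> exact hdu⟩
  refine ker_of (fun p hp => ⟨(H.pr p hp).1, (H.pr p hp).2.1⟩) hJP hJ hdu hu husq ?_ ?_
  · intro p _ hpP hpJ
    obtain ⟨pp, p8, p7, hsev⟩ := H.pr p hpP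
    have hpd : ¬ (p : ℤ) ∣ d := fun h1 => hpJ ((hJ p hpP).2 h1)
    have hpM : (p : ℤ) ∣ (((∏ p ∈ P, p) * m : ℕ) : ℤ) :=
      Int.natCast_dvd_natCast.2 ((Finset.dvd_prod_of_mem _ hpP).mul_right _)
    obtain ⟨τ, hτ⟩ := hsev
    have n7 : (7 : ZMod p) ≠ 0 := by exact_mod_cast prime_cast_ne pp 7 (by norm_num) p7
    exact (h p).sq H.sqf hpd hpM (b := 7 * τ)
      (by push_cast; linear_combination 49 * hτ) (by
        have hτ0 : τ ≠ 0 := by
          rintro rfl; apply n7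
          linear_combination -hτ
        exact mul_ne_zero n7 hτ0)
  · intro p _ hp
    obtain ⟨pp, p8, p7, hsev⟩ := H.pr p (hJP hp)
    have hdd : d = p * (((∏ q ∈ J.erase p, q : ℕ) : ℤ) * u) := by
      rw [hdu, ← Finset.mul_prod_erase J (fun q => q) hp]
      push_cast
      ring
    exact rt2 p8 p7 hsev (h p) hd H.sqf (erase_prod (hJP hp) m) hdd

end Pool.Agent.U115.XP
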